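import Pool.Agent.H59.R1.CohD
import Pool.Agent.H85.R1.Pol

/-!
# Rank one over `F(t)`: the analytic rank is one
-/

set_option autoImplicit false

namespace Pool.RKO

open Polynomial Matrix Pool.AVR Pool.AVS Pool.RZ Pool.PRL

/-- The analytic rank is one: Selmer rank one, class not locally trivial at `t = 0`. -/
theorem arank {F : Type} [Field F] [Finite F] {g : F[X] × F[X] × F[X]} (h : R1 g) {M : Type}
    [AddCommGroup M] [Module ℤ_[2] M] [Module.Free ℤ_[2] M] [Module.Finite ℤ_[2] M]
    (C : Coh g M) : AR g 1 := by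
  refine ⟨C.L, C.isL, ?_⟩
  have h1 := C.mult_one h
  have hI : ∀ P ∈ C.I, 0 < P.natDegree := fun P hP => (((C.hI P).mp hP).2.1).natDegree_pos
  have h2 := pol_mult (Nat.card F) Nat.card_pos.ne' C.L (isL_coeff C.isL) C.I hI
  rw [← C.chp, h1] at h2
  omega

/-- The analytic rank is well defined. -/
theorem ar_unique {F : Type} [Field F] [Finite F] {g : F[X] × F[X] × F[X]} {r s : ℕ}
    (h : AR g r) (h' : AR g s) : r = s := by
  obtain ⟨L, hL, rfl⟩ := h
  obtain ⟨L', hL', rfl⟩ := h'
  rw [isL_unique hL hL']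

end Pool.RKO
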