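import Pool.Agent.H59.R1.Defs

/-!
# Rank one over `F(t)`: the `L`-function and the cohomology of the elliptic surface

`F` finite of odd order, `K = F(t)`.  `IsL g L`: `L` is the `L`-polynomial of the elliptic curve
`E_g` (defined by numbers of points).  `AR g r`: `L` has a zero of order `r` at `T = 1/q`, i.e. the
analytic rank is `r`.  `Coh g M`: the list of the published facts on `M = H²(S̄, ℤ₂(1))`, `S → ℙ¹`
the minimal elliptic surface of `E_g`, which are used in `H59/R1/CohP.lean`.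
-/

set_option autoImplicit false

namespace Pool.RKO

open Polynomial Matrix Pool.AVR Pool.AVS Pool.RZ Pool.PRL

section LFunction

variable {F : Type} [Field F]

open Classical in
/-- The Euler factor at the prime `P`: `q_P` is the number of elements of the residue field and
`q_P - nE` is the trace of Frobenius (it is `0` or `± 1` for bad reduction). -/
noncomputable def EF (g : F[X] × F[X] × F[X]) (P : F[X]) : ℤ[X] :=
  1 - C ((Nat.card F : ℤ) ^ P.natDegree -
      nE (AdjoinRoot P) (AdjoinRoot.mk P g.1) (AdjoinRoot.mk P g.2.1) (AdjoinRoot.mk P g.2.2)) *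
      X ^ P.natDegree +
    if P ∣ disc g.1 g.2.1 g.2.2 then 0
    else C ((Nat.card F : ℤ) ^ P.natDegree) * X ^ (2 * P.natDegree)

/-- `L` is the `L`-polynomial of the elliptic curve `y² = x³ + g.1 x² + g.2.1 x + g.2.2` over
`F(t)`, i.e. the inverse of the product of the Euler factors; for equations which are minimal at
all primes and with additive reduction at infinity. -/
def IsL (g : F[X] × F[X] × F[X]) (L : ℤ[X]) : Prop :=
  ∀ N : ℕ, (X : ℤ[X]) ^ (N + 1) ∣
    L * ∏ᶠ P ∈ {P : F[X] | P.Monic ∧ Irreducible P ∧ P.natDegree ≤ N}, EF g P - 1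

/-- The analytic rank is `r`: the order of the zero of the `L`-polynomial at `T = 1/q`. -/
def AR (g : F[X] × F[X] × F[X]) (r : ℕ) : Prop :=
  ∃ L : ℤ[X], IsL g L ∧
    (L.map (Int.castRingHom ℚ)).rootMultiplicity ((Nat.card F : ℚ)⁻¹) = r

end LFunction

/-- Published facts on the minimal elliptic surface `S → ℙ¹` over `F` of `E_g`, for `g` as in `R1`.
`M = H²(S̄, ℤ₂(1))`, a free `ℤ₂`-module of finite rank. -/
structure Coh {F : Type} [Field F] (g : F[X] × F[X] × F[X]) (M : Type) [AddCommGroup M]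
    [Module ℤ_[2] M] [Module.Free ℤ_[2] M] [Module.Finite ℤ_[2] M] where
  /-- the finite places of additive reduction: type `I₀*`, two components of multiplicity one
  are rational over the residue field and two are conjugate -/
  I : Finset F[X]
  hI : ∀ P : F[X], P ∈ I ↔ P.Monic ∧ Irreducible P ∧ P ^ 2 ∣ disc g.1 g.2.1 g.2.2
  /-- the cup product -/
  B : M →ₗ[ℤ_[2]] M →ₗ[ℤ_[2]] ℤ_[2]
  symm : ∀ x y, B x y = B y x
  /-- Frobenius -/
  Fr : M →ₗ[ℤ_[2]] M
  iso : ∀ x y, B (Fr x) (Fr y) = B x y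
  /-- the Euler characteristic of the structure sheaf -/
  chi : ℤ
  /-- `U 0`: the zero section; `U 1`: a fibre -/
  U : Fin 2 → M
  /-- `W 0`: the double component of the fibre at infinity (of type `I₀*`); `W 1`: the sum of the
  three conjugate simple components of this fibre -/
  W : Fin 2 → M
  /-- for `P ∈ I`: sums over the `deg P` fibres over `P` of: `t P 0`, the rational component of
  multiplicity one which does not meet the zero section; `t P 1`, the double component;
  `t P 2`, the two conjugate components -/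
  t : F[X] → Fin 3 → M
  fixU : ∀ i, Fr (U i) = U i
  fixW : ∀ i, Fr (W i) = W i
  fixt : ∀ P ∈ I, ∀ i, Fr (t P i) = t P i
  UU : ∀ i j, B (U i) (U j) = !![-(chi : ℤ_[2]), 1; 1, 0] i j
  WW : ∀ i j, B (W i) (W j) = !![(-2 : ℤ_[2]), 3; 3, -6] i j
  UW : ∀ i j, B (U i) (W j) = 0
  Ut : ∀ P ∈ I, ∀ i j, B (U i) (t P j) = 0
  Wt : ∀ P ∈ I, ∀ i j, B (W i) (t P j) = 0
  tt : ∀ P ∈ I, ∀ i j, B (t P i) (t P j) =
    (P.natDegree : ℤ_[2]) * !![(-2 : ℤ_[2]), 1, 0; 1, -2, 2; 0, 2, -4] i j
  tQ : ∀ P ∈ I, ∀ Q ∈ I, P ≠ Q → ∀ i j, B (t P i) (t Q j) = 0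
  /-- intersection numbers of a class fixed by Frobenius with conjugate components are equal -/
  dvt : ∀ P ∈ I, ∀ x, Fr x = x → ∃ a b c : ℤ_[2], B x (t P 0) = P.natDegree * a ∧
    B x (t P 1) = P.natDegree * c ∧ B x (t P 2) = P.natDegree * (2 * b)
  /-- Wu's formula, the canonical class being `(chi - 2)` times a fibre -/
  wu : ∀ x, ∃ w : ℤ_[2], B x x = (chi - 2) * B x (U 1) + 2 * w
  /-- the class in the 2-Selmer group of a class fixed by Frobenius -/
  cl : M → (Alg g)ˣ ⧸ Sq g
  cl_mul : ∀ x y, Fr x = x → Fr y = y → cl (x + y) = cl x * cl y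
  cl_sel : ∀ x, Fr x = x → cl x ∈ Sel g
  cl_ker : ∀ x, Fr x = x → cl x = 1 → ∃ τ ∈ Submodule.span ℤ_[2]
    (Set.range U ∪ Set.range W ∪ {z | ∃ P ∈ I, ∃ i, z = t P i}), ∃ z, Fr z = z ∧ x = τ + 2 • z
  /-- the order of the quotient of the Tate-Shafarevich group by its divisible subgroup is a
  square, and so is the order of its 2-torsion (Cassels, Tate) -/
  cl_sq : ∃ k : ℕ, (Sel g).ncard = k ^ 2 * (cl '' {x | Fr x = x}).ncard
  /-- at `t = 0` the class is locally trivial if and only if it meets the identity component -/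
  cl_X : ∀ v : IsDedekindDomain.HeightOneSpectrum F[X], v.asIdeal = Ideal.span {(X : F[X])} →
    ∀ x, Fr x = x → ∀ a b : ℤ_[2], B x (t X 0) = a → B x (t X 2) = 2 * b →
    (LTr v g (cl x) ↔ 2 ∣ a + b)
  /-- the `L`-polynomial and the characteristic polynomial of Frobenius (Grothendieck) -/
  L : ℤ[X]
  isL : IsL g L
  chp : Fr.charpoly.map (algebraMap ℤ_[2] ℚ_[2]) =
    (X - 1) ^ 3 * (X ^ 3 - 1) * (∏ P ∈ I, (X ^ P.natDegree - 1) ^ 2 * (X ^ (2 * P.natDegree) - 1)) *
      ((L.map (Int.castRingHom ℚ_[2])).comp (C ((Nat.card F : ℚ_[2])⁻¹) * X)).reverse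

end Pool.RKO
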