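import Mathlib

/-!
# Rank one over `F(t)`: linear algebra for the cohomology of the surface
-/

set_option autoImplicit false
set_option linter.unusedSectionVars false

namespace Pool.RKO.LAl

open Polynomial

variable {K V : Type} [Field K] [CharZero K] [AddCommGroup V] [Module K V]
variable {ι : Type} [Fintype ι] [DecidableEq ι]

/-- The linear map given by the generators. -/
noncomputable def Psi (e : Fin 5 → V) (t : ι → Fin 3 → V) :
    ((Fin 5 → K) × (ι → Fin 3 → K)) →ₗ[K] V where
  toFun x := ∑ i, x.1 i • e i + ∑ P, ∑ j, x.2 P j • t P j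
  map_add' x y := by
    simp only [Prod.fst_add, Prod.snd_add, Pi.add_apply, add_smul, Finset.sum_add_distrib]
    abel
  map_smul' c x := by
    simp only [Prod.smul_fst, Prod.smul_snd, Pi.smul_apply, smul_eq_mul, mul_smul, smul_add,
      Finset.smul_sum, RingHom.id_apply]

theorem Psi_apply (e : Fin 5 → V) (t : ι → Fin 3 → V) (x : (Fin 5 → K) × (ι → Fin 3 → K)) :
    Psi e t x = ∑ i, x.1 i • e i + ∑ P, ∑ j, x.2 P j • t P j := rfl

/-- The Gram matrix of the trivial classes and of the new class. -/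
structure Grm (B : V →ₗ[K] V →ₗ[K] K) (χ s : K) (dg : ι → K) (e : Fin 5 → V)
    (t : ι → Fin 3 → V) : Prop where
  hs : s ≠ 0
  hdg : ∀ P, dg P ≠ 0
  hee : ∀ i j, B (e i) (e j) =
    !![-χ, 1, 0, 0, 0; 1, 0, 0, 0, 0; 0, 0, -2, 3, 0; 0, 0, 3, -6, 0; 0, 0, 0, 0, s] i j
  het : ∀ i P j, B (e i) (t P j) = 0
  hte : ∀ P i j, B (t P i) (e j) = 0
  htt : ∀ P Q i j, B (t P i) (t Q j) =
    if P = Q then dg P * !![(-2 : K), 1, 0; 1, -2, 2; 0, 2, -4] i j else 0

variable {B : V →ₗ[K] V →ₗ[K] K} {χ s : K} {dg : ι → K} {e : Fin 5 → V} {t : ι → Fin 3 → V}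

theorem nd (h : Grm B χ s dg e t) (x : (Fin 5 → K) × (ι → Fin 3 → K))
    (h1 : ∀ j, B (Psi e t x) (e j) = 0) (h2 : ∀ P j, B (Psi e t x) (t P j) = 0) : x = 0 := by
  obtain ⟨x, y⟩ := x
  have hx : ∀ j, ∑ i, x i * (!![-χ, 1, 0, 0, 0; 1, 0, 0, 0, 0; 0, 0, -2, 3, 0; 0, 0, 3, -6, 0;
      0, 0, 0, 0, s] : Matrix (Fin 5) (Fin 5) K) i j = 0 := by
    intro j
    have := h1 j
    rw [Psi_apply] at this
    simp only [map_add, map_sum, map_smul, LinearMap.add_apply, LinearMap.sum_apply,
      LinearMap.smul_apply, smul_eq_mul, h.hee, h.hte, mul_zero, Finset.sum_const_zero,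
      add_zero] at this
    exact this
  have hy : ∀ P j, ∑ i, y P i * (!![(-2 : K), 1, 0; 1, -2, 2; 0, 2, -4] :
      Matrix (Fin 3) (Fin 3) K) i j = 0 := by
    intro P j
    have := h2 P j
    rw [Psi_apply] at this
    simp only [map_add, map_sum, map_smul, LinearMap.add_apply, LinearMap.sum_apply,
      LinearMap.smul_apply, smul_eq_mul, h.het, h.htt, mul_zero, Finset.sum_const_zero,
      zero_add] at this
    rw [Finset.sum_eq_single P] at this
    · simp only [if_true] at this
      have h3 : dg P * ∑ i, y P i * (!![(-2 : K), 1, 0; 1, -2, 2; 0, 2, -4] :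
          Matrix (Fin 3) (Fin 3) K) i j = 0 := by
        rw [Finset.mul_sum]
        refine Eq.trans (Finset.sum_congr rfl fun i _ => ?_) this
        ring
      exact (mul_eq_zero.mp h3).resolve_left (h.hdg P)
    · intro Q _ hQ
      exact Finset.sum_eq_zero fun i _ => by rw [if_neg hQ, mul_zero]
    · intro hP; exact absurd (Finset.mem_univ _) hP
  have e0 := hx 0
  have e1 := hx 1
  have e2 := hx 2
  have e3 := hx 3
  have e4 := hx 4
  simp [Fin.sum_univ_five] at e0 e1 e2 e3 e4
  have f0 := fun P => hy P 0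
  have f1 := fun P => hy P 1
  have f2 := fun P => hy P 2
  simp [Fin.sum_univ_three] at f0 f1 f2
  have x0 : x 0 = 0 := e1
  have x1 : x 1 = 0 := by linear_combination e0 + χ * e1
  have x2 : x 2 = 0 := by linear_combination -2 * e2 - e3
  have x3 : x 3 = 0 := by linear_combination (1 / 3 : K) * e2 + (2 / 3 : K) * x2
  have x4 : x 4 = 0 := e4.resolve_right h.hs
  have y0 : ∀ P, y P 0 = 0 := fun P => by linear_combination -f0 P - f1 P - (1 / 2 : K) * f2 P
  have y1 : ∀ P, y P 1 = 0 := fun P => by linear_combination f0 P + 2 * y0 P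
  have y2 : ∀ P, y P 2 = 0 := fun P => by
    linear_combination (-1 / 4 : K) * f2 P + (1 / 2 : K) * y1 P
  refine Prod.ext ?_ ?_
  · funext i
    fin_cases i <;> simp [x0, x1, x2, x3, x4]
  · funext P i
    fin_cases i <;> simp [y0, y1, y2]

theorem main_la [FiniteDimensional K V] (h : Grm B χ s dg e t) (Fr : V →ₗ[K] V)
    (iso : ∀ x y, B (Fr x) (Fr y) = B x y) (fe : ∀ i, Fr (e i) = e i)
    (ft : ∀ P i, Fr (t P i) = t P i) (hF : ∀ v, Fr v = v → ∃ x, v = Psi (K := K) e t x) :
    Fr.charpoly.rootMultiplicity 1 = 5 + 3 * Fintype.card ι := by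
  have fP : ∀ x, Fr (Psi (K := K) e t x) = Psi (K := K) e t x := by
    intro x
    simp only [Psi_apply, map_add, map_sum, map_smul, fe, ft]
  -- no Jordan block
  have hJ : ∀ v, Fr (Fr v - v) = Fr v - v → Fr v = v := by
    intro v hv
    obtain ⟨x, hx⟩ := hF _ hv
    have ho : ∀ u, Fr u = u → B (Fr v - v) u = 0 := by
      intro u hu
      have := iso v u
      rw [hu] at this
      rw [map_sub, LinearMap.sub_apply, this, sub_self]
    have hx0 := nd h x (fun j => by rw [← hx]; exact ho _ (fe j))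
      (fun P j => by rw [← hx]; exact ho _ (ft P j))
    rw [hx0, map_zero] at hx
    exact sub_eq_zero.mp hx
  have hJ2 : ∀ (k : ℕ) (v : V), ((Fr - (1 : K) • (1 : Module.End K V)) ^ k) v = 0 → Fr v = v := by
    intro k
    induction k with
    | zero =>
      intro v hv
      rw [pow_zero, Module.End.one_apply] at hv
      rw [hv, map_zero]
    | succ k ih =>
      intro v hv
      rw [pow_succ, Module.End.mul_apply] at hv
      have h1 := ih _ hv
      simp only [one_smul, LinearMap.sub_apply, Module.End.one_apply] at h1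
      exact hJ v h1
  rw [← LinearMap.finrank_maxGenEigenspace_eq]
  have hinj : Function.Injective (Psi (K := K) e t) := by
    rw [← LinearMap.ker_eq_bot, LinearMap.ker_eq_bot']
    intro x hx
    exact nd h x (fun j => by rw [hx, map_zero, LinearMap.zero_apply])
      (fun P j => by rw [hx, map_zero, LinearMap.zero_apply])
  have heq : Module.End.maxGenEigenspace Fr 1 = LinearMap.range (Psi (K := K) e t) := by
    ext v
    rw [Module.End.mem_maxGenEigenspace, LinearMap.mem_range]
    constructor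
    · rintro ⟨k, hk⟩
      obtain ⟨x, hx⟩ := hF v (hJ2 k v hk)
      exact ⟨x, hx.symm⟩
    · rintro ⟨x, rfl⟩
      refine ⟨1, ?_⟩
      rw [pow_one, LinearMap.sub_apply, one_smul, Module.End.one_apply, fP, sub_self]
  rw [heq, LinearMap.finrank_range_of_inj hinj, Module.finrank_prod, Module.finrank_fin_fun,
    Module.finrank_pi_fintype]
  simp only [Module.finrank_fin_fun, Finset.sum_const, Finset.card_univ, smul_eq_mul]
  ring

end Pool.RKO.LAl
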