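import Pool.Agent.H59.R1.Coh
import Pool.Agent.H59.R1.CohA

/-!
# Rank one over `F(t)`: the multiplicity of the eigenvalue 1 of Frobenius
-/

set_option autoImplicit false
set_option linter.unusedSectionVars false

namespace Pool.RKO

open Polynomial Matrix Pool.AVR Pool.AVS Pool.RZ Pool.PRL TensorProduct

namespace Coh

variable {F : Type} [Field F] {g : F[X] × F[X] × F[X]} {M : Type} [AddCommGroup M]
  [Module ℤ_[2] M] [Module.Free ℤ_[2] M] [Module.Finite ℤ_[2] M] (C : Coh g M)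

/-- The trivial classes. -/
noncomputable def Triv : Submodule ℤ_[2] M := Submodule.span ℤ_[2]
  (Set.range C.U ∪ Set.range C.W ∪ {z | ∃ P ∈ C.I, ∃ i, z = C.t P i})

theorem U_mem (i : Fin 2) : C.U i ∈ C.Triv :=
  Submodule.subset_span (Or.inl (Or.inl ⟨i, rfl⟩))

theorem W_mem (i : Fin 2) : C.W i ∈ C.Triv :=
  Submodule.subset_span (Or.inl (Or.inr ⟨i, rfl⟩))

theorem t_mem {P : F[X]} (hP : P ∈ C.I) (i : Fin 3) : C.t P i ∈ C.Triv :=
  Submodule.subset_span (Or.inr ⟨P, hP, i, rfl⟩)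

/-- `m ↦ 1 ⊗ m`. -/
noncomputable abbrev io : M →ₗ[ℤ_[2]] (ℚ_[2] ⊗[ℤ_[2]] M) := TensorProduct.mk ℤ_[2] ℚ_[2] M 1

theorem io_inj {m : M} (h : (io m : ℚ_[2] ⊗[ℤ_[2]] M) = 0) : m = 0 := by
  have hb := Module.Free.chooseBasis ℤ_[2] M
  have := congrArg (hb.baseChange ℚ_[2]).repr h
  rw [map_zero] at this
  apply hb.repr.injective
  rw [map_zero]
  ext i
  have h2 := DFunLike.congr_fun this i
  rw [TensorProduct.mk_apply, Module.Basis.baseChange_repr_tmul] at h2
  simpa using h2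

theorem io_surj (v : ℚ_[2] ⊗[ℤ_[2]] M) : ∃ (s : ℤ_[2]) (m : M), s ≠ 0 ∧
    (s : ℚ_[2]) • v = io m := by
  induction v using TensorProduct.induction_on with
  | zero => exact ⟨1, 0, one_ne_zero, by rw [smul_zero, map_zero]⟩
  | tmul a m =>
    obtain ⟨x, y, hy, hxy⟩ := IsFractionRing.div_surjective (A := ℤ_[2]) a
    refine ⟨y, x • m, nonZeroDivisors.ne_zero hy, ?_⟩
    have hy0 : (algebraMap ℤ_[2] ℚ_[2] y) ≠ 0 := by
      simpa using nonZeroDivisors.ne_zero hy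
    rw [← hxy, TensorProduct.smul_tmul', TensorProduct.mk_apply, TensorProduct.tmul_smul,
      TensorProduct.smul_tmul']
    congr 1
    rw [smul_eq_mul, Algebra.smul_def, mul_one]
    exact mul_div_cancel₀ _ hy0
  | add v w hv hw =>
    obtain ⟨s, m, hs, h1⟩ := hv
    obtain ⟨s', m', hs', h2⟩ := hw
    refine ⟨s * s', s' • m + s • m', mul_ne_zero hs hs', ?_⟩
    rw [map_add, map_smul, map_smul, ← h1, ← h2, smul_add]
    congr 1
    · rw [← algebraMap_smul ℚ_[2] s', ← mul_smul, mul_comm]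
      rfl
    · rw [← algebraMap_smul ℚ_[2] s, ← mul_smul]
      rfl

/-- The bilinear form over `ℚ₂`. -/
noncomputable abbrev BV : (ℚ_[2] ⊗[ℤ_[2]] M) →ₗ[ℚ_[2]] (ℚ_[2] ⊗[ℤ_[2]] M) →ₗ[ℚ_[2]] ℚ_[2] :=
  LinearMap.BilinForm.baseChange ℚ_[2] C.B

theorem BV_io (m n : M) : C.BV (io m) (io n) = (C.B m n : ℚ_[2]) := by
  rw [TensorProduct.mk_apply, TensorProduct.mk_apply, BV, LinearMap.BilinForm.baseChange_tmul,
    mul_one, Algebra.smul_def, mul_one]
  rfl

theorem BV_iso (v w : ℚ_[2] ⊗[ℤ_[2]] M) :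
    C.BV (C.Fr.baseChange ℚ_[2] v) (C.Fr.baseChange ℚ_[2] w) = C.BV v w := by
  induction v using TensorProduct.induction_on with
  | zero => rw [map_zero, map_zero, LinearMap.zero_apply, LinearMap.zero_apply]
  | add v v' h h' => rw [map_add, map_add, map_add, LinearMap.add_apply, LinearMap.add_apply, h, h']
  | tmul a m =>
    induction w using TensorProduct.induction_on with
    | zero => rw [map_zero, map_zero, map_zero]
    | add w w' h h' => rw [map_add, map_add, map_add, h, h']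
    | tmul b n =>
      rw [LinearMap.baseChange_tmul, LinearMap.baseChange_tmul, BV,
        LinearMap.BilinForm.baseChange_tmul, LinearMap.BilinForm.baseChange_tmul, C.iso]

theorem mult (y z τ : M) (hy : C.Fr y = y) (hz : C.Fr z = z) (hyz : (6 : ℤ_[2]) • y = z + τ)
    (hτ : τ ∈ C.Triv) (zU : ∀ i, C.B z (C.U i) = 0) (zW : ∀ i, C.B z (C.W i) = 0)
    (zt : ∀ P ∈ C.I, ∀ i, C.B z (C.t P i) = 0) (hzz : C.B z z ≠ 0)
    (hN : ∀ x, C.Fr x = x → x ∈ C.Triv ⊔ Submodule.span ℤ_[2] {y}) (hI : ∀ P ∈ C.I, 0 < P.natDegree) :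
    (C.Fr.charpoly.map (algebraMap ℤ_[2] ℚ_[2])).rootMultiplicity 1 = 5 + 3 * C.I.card := by
  classical
  rw [← LinearMap.charpoly_baseChange]
  set e : Fin 5 → ℚ_[2] ⊗[ℤ_[2]] M := fun i => io (![C.U 0, C.U 1, C.W 0, C.W 1, z] i) with he
  set t : {P // P ∈ C.I} → Fin 3 → ℚ_[2] ⊗[ℤ_[2]] M := fun P i => io (C.t P.1 i) with ht
  have c2 : ((2 : ℤ_[2]) : ℚ_[2]) = 2 := map_ofNat (algebraMap ℤ_[2] ℚ_[2]) 2
  have c3 : ((3 : ℤ_[2]) : ℚ_[2]) = 3 := map_ofNat (algebraMap ℤ_[2] ℚ_[2]) 3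
  have c4 : ((4 : ℤ_[2]) : ℚ_[2]) = 4 := map_ofNat (algebraMap ℤ_[2] ℚ_[2]) 4
  have c6 : ((6 : ℤ_[2]) : ℚ_[2]) = 6 := map_ofNat (algebraMap ℤ_[2] ℚ_[2]) 6
  have hG : LAl.Grm C.BV (C.chi : ℚ_[2]) (C.B z z : ℚ_[2])
      (fun P : {P // P ∈ C.I} => (P.1.natDegree : ℚ_[2])) e t := by
    refine ⟨?_, ?_, ?_, ?_, ?_, ?_⟩
    · simpa using hzz
    · intro P
      exact Nat.cast_ne_zero.mpr (hI P.1 P.2).ne'
    · intro i j
      rw [he]
      simp only [C.BV_io]
      have hUz : ∀ i, C.B (C.U i) z = 0 := fun i => by rw [C.symm, zU]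
      have hWz : ∀ i, C.B (C.W i) z = 0 := fun i => by rw [C.symm, zW]
      have hWU : ∀ i j, C.B (C.W i) (C.U j) = 0 := fun i j => by rw [C.symm, C.UW]
      fin_cases i <;> fin_cases j <;> simp [C.UU, C.WW, C.UW, hWU, zU, zW, hUz, hWz, c2, c3, c6]
    · intro i P j
      rw [he, ht]
      simp only [C.BV_io]
      fin_cases i <;> simp [C.Ut P.1 P.2, C.Wt P.1 P.2, zt P.1 P.2]
    · intro P i j
      rw [he, ht]
      simp only [C.BV_io]
      rw [C.symm]
      fin_cases j <;> simp [C.Ut P.1 P.2, C.Wt P.1 P.2, zt P.1 P.2]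
    · intro P Q i j
      rw [ht]
      simp only [C.BV_io]
      by_cases h : P = Q
      · subst h
        rw [if_pos rfl, C.tt P.1 P.2]
        fin_cases i <;> fin_cases j <;> simp [c2, c4]
      · rw [if_neg h, C.tQ P.1 P.2 Q.1 Q.2 (fun h' => h (Subtype.ext h'))]
        rfl
  have hcard : C.I.card = Fintype.card {P // P ∈ C.I} := by simp
  rw [hcard]
  have hfe : ∀ m, C.Fr m = m → C.Fr.baseChange ℚ_[2] (io m) = io m := fun m hm => by
    rw [TensorProduct.mk_apply, LinearMap.baseChange_tmul, hm]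
  refine LAl.main_la hG (C.Fr.baseChange ℚ_[2]) C.BV_iso ?_ ?_ ?_
  · intro i
    refine hfe _ ?_
    fin_cases i <;> simp [C.fixU, C.fixW, hz]
  · intro P i
    exact hfe _ (C.fixt P.1 P.2 i)
  · intro v hv
    obtain ⟨s, m, hs, hm⟩ := io_surj v
    have hFm : C.Fr m = m := by
      have h1 : io (C.Fr m - m) = (0 : ℚ_[2] ⊗[ℤ_[2]] M) := by
        have h2 : C.Fr.baseChange ℚ_[2] (io m) = io (C.Fr m) := by
          rw [TensorProduct.mk_apply, LinearMap.baseChange_tmul, TensorProduct.mk_apply]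
        rw [map_sub, ← h2, ← hm, map_smul, hv, sub_self]
      exact sub_eq_zero.mp (io_inj h1)
    set R : Submodule ℤ_[2] M := Submodule.comap io
      ((LinearMap.range (LAl.Psi (K := ℚ_[2]) e t)).restrictScalars ℤ_[2]) with hR
    have hRe : ∀ i, e i ∈ LinearMap.range (LAl.Psi (K := ℚ_[2]) e t) := by
      intro i
      refine ⟨(Pi.single i 1, 0), ?_⟩
      rw [LAl.Psi_apply]
      simp [Pi.single_apply]
    have hRt : ∀ P i, t P i ∈ LinearMap.range (LAl.Psi (K := ℚ_[2]) e t) := by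
      intro P i
      refine ⟨(0, Pi.single P (Pi.single i 1)), ?_⟩
      rw [LAl.Psi_apply]
      simp only [Pi.zero_apply, zero_smul, Finset.sum_const_zero, zero_add]
      rw [Finset.sum_eq_single P]
      · rw [Finset.sum_eq_single i]
        · simp
        · intro j _ hj; simp [hj]
        · intro h; exact absurd (Finset.mem_univ _) h
      · intro Q _ hQ
        refine Finset.sum_eq_zero fun j _ => ?_
        simp [hQ]
      · intro h; exact absurd (Finset.mem_univ _) h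
    have hTR : C.Triv ≤ R := by
      refine Submodule.span_le.mpr ?_
      rintro x ((⟨i, rfl⟩ | ⟨i, rfl⟩) | ⟨P, hP, i, rfl⟩)
      · fin_cases i
        · exact hRe 0
        · exact hRe 1
      · fin_cases i
        · exact hRe 2
        · exact hRe 3
      · exact hRt ⟨P, hP⟩ i
    have hzR : z ∈ R := hRe 4
    have hyR : y ∈ R := by
      have h6 : (6 : ℤ_[2]) • y ∈ R := hyz ▸ R.add_mem hzR (hTR hτ)
      have h7 : (6 : ℚ_[2]) • (io y : ℚ_[2] ⊗[ℤ_[2]] M) ∈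
          LinearMap.range (LAl.Psi (K := ℚ_[2]) e t) := by
        have h8 : (6 : ℚ_[2]) • (io y : ℚ_[2] ⊗[ℤ_[2]] M) = io ((6 : ℤ_[2]) • y) := by
          rw [map_smul, ← algebraMap_smul ℚ_[2] (6 : ℤ_[2]), map_ofNat]
        rw [h8]
        exact h6
      exact (Submodule.smul_mem_iff (LinearMap.range (LAl.Psi (K := ℚ_[2]) e t))
        (show (6 : ℚ_[2]) ≠ 0 by norm_num)).mp h7
    have hmR : m ∈ R := (sup_le hTR ((Submodule.span_singleton_le_iff_mem _ _).mpr hyR)) (hN m hFm)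
    have hv2 : v ∈ LinearMap.range (LAl.Psi (K := ℚ_[2]) e t) := by
      have h9 : (s : ℚ_[2]) • v ∈ LinearMap.range (LAl.Psi (K := ℚ_[2]) e t) := hm ▸ hmR
      exact (Submodule.smul_mem_iff (LinearMap.range (LAl.Psi (K := ℚ_[2]) e t))
        (show (s : ℚ_[2]) ≠ 0 by simpa using hs)).mp h9
    obtain ⟨x, hx⟩ := hv2
    exact ⟨x, hx.symm⟩

end Coh

end Pool.RKO
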