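import Pool.Agent.H59.R1.CohB

/-!
# Rank one over `F(t)`: the projection of a class to the complement of the trivial classes
-/

set_option autoImplicit false
set_option linter.unusedSectionVars false
set_option linter.unusedVariables false

namespace Pool.RKO

open Polynomial Matrix Pool.AVR Pool.AVS Pool.RZ Pool.PRL TensorProduct

namespace Coh

variable {F : Type} [Field F] {g : F[X] × F[X] × F[X]} {M : Type} [AddCommGroup M]
  [Module ℤ_[2] M] [Module.Free ℤ_[2] M] [Module.Finite ℤ_[2] M] (C : Coh g M)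

/-- Six times the projection of `y` to the span of the trivial classes. -/
noncomputable def tau (y : M) (a b c : F[X] → ℤ_[2]) : M :=
  (6 * C.B y (C.U 1)) • C.U 0 + (6 * (C.B y (C.U 0) + C.chi * C.B y (C.U 1))) • C.U 1 +
  (∑ P ∈ C.I, ((-6 * (a P + b P + c P)) • C.t P 0 + (-6 * (a P + 2 * b P + 2 * c P)) • C.t P 1 +
    (-3 * (a P + 3 * b P + 2 * c P)) • C.t P 2)) +
  (-6 * (C.B y (C.W 1) + 2 * C.B y (C.W 0))) • C.W 0 +
  (-2 * (3 * C.B y (C.W 0) + 2 * C.B y (C.W 1))) • C.W 1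

theorem tau_mem (y : M) (a b c : F[X] → ℤ_[2]) : C.tau y a b c ∈ C.Triv := by
  unfold tau
  refine add_mem (add_mem (add_mem (add_mem ?_ ?_) (sum_mem fun P hP => ?_)) ?_) ?_
  · exact Submodule.smul_mem _ _ (C.U_mem 0)
  · exact Submodule.smul_mem _ _ (C.U_mem 1)
  · exact add_mem (add_mem (Submodule.smul_mem _ _ (C.t_mem hP 0))
      (Submodule.smul_mem _ _ (C.t_mem hP 1))) (Submodule.smul_mem _ _ (C.t_mem hP 2))
  · exact Submodule.smul_mem _ _ (C.W_mem 0)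
  · exact Submodule.smul_mem _ _ (C.W_mem 1)

theorem triv_fix {τ : M} (h : τ ∈ C.Triv) : C.Fr τ = τ := by
  have : C.Triv ≤ LinearMap.ker (C.Fr - LinearMap.id) := by
    refine Submodule.span_le.mpr ?_
    rintro x ((⟨i, rfl⟩ | ⟨i, rfl⟩) | ⟨P, hP, i, rfl⟩)
    · simp [C.fixU]
    · simp [C.fixW]
    · simp [C.fixt P hP]
  have h2 := this h
  rw [LinearMap.mem_ker, LinearMap.sub_apply, LinearMap.id_apply] at h2
  exact sub_eq_zero.mp h2

theorem triv_orth {z τ : M} (h : τ ∈ C.Triv) (zU : ∀ i, C.B z (C.U i) = 0)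
    (zW : ∀ i, C.B z (C.W i) = 0) (zt : ∀ P ∈ C.I, ∀ i, C.B z (C.t P i) = 0) : C.B z τ = 0 := by
  have : C.Triv ≤ LinearMap.ker (C.B z) := by
    refine Submodule.span_le.mpr ?_
    rintro x ((⟨i, rfl⟩ | ⟨i, rfl⟩) | ⟨P, hP, i, rfl⟩)
    · exact zU i
    · exact zW i
    · exact zt P hP i
  exact this h

theorem U00 : C.B (C.U 0) (C.U 0) = -(C.chi : ℤ_[2]) := by rw [C.UU]; simp
theorem U01 : C.B (C.U 0) (C.U 1) = 1 := by rw [C.UU]; simp
theorem U10 : C.B (C.U 1) (C.U 0) = 1 := by rw [C.UU]; simp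
theorem U11 : C.B (C.U 1) (C.U 1) = 0 := by rw [C.UU]; simp
theorem W00 : C.B (C.W 0) (C.W 0) = -2 := by rw [C.WW]; simp
theorem W01 : C.B (C.W 0) (C.W 1) = 3 := by rw [C.WW]; simp
theorem W10 : C.B (C.W 1) (C.W 0) = 3 := by rw [C.WW]; simp
theorem W11 : C.B (C.W 1) (C.W 1) = -6 := by rw [C.WW]; simp
theorem WU (i j : Fin 2) : C.B (C.W i) (C.U j) = 0 := by rw [C.symm, C.UW]
theorem tU {P : F[X]} (hP : P ∈ C.I) (i : Fin 3) (j : Fin 2) : C.B (C.t P i) (C.U j) = 0 := by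
  rw [C.symm, C.Ut P hP]
theorem tW {P : F[X]} (hP : P ∈ C.I) (i : Fin 3) (j : Fin 2) : C.B (C.t P i) (C.W j) = 0 := by
  rw [C.symm, C.Wt P hP]

theorem tau_U0 (y : M) (a b c : F[X] → ℤ_[2]) :
    C.B (C.tau y a b c) (C.U 0) = 6 * C.B y (C.U 0) := by
  unfold tau
  simp only [map_add, map_sum, map_smul, LinearMap.add_apply, LinearMap.sum_apply,
    LinearMap.smul_apply, smul_eq_mul, C.U00, C.U10, C.WU, mul_zero, add_zero]
  rw [Finset.sum_eq_zero]
  · ring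
  · intro P hP
    rw [C.tU hP, C.tU hP, C.tU hP]
    ring

theorem tau_U1 (y : M) (a b c : F[X] → ℤ_[2]) :
    C.B (C.tau y a b c) (C.U 1) = 6 * C.B y (C.U 1) := by
  unfold tau
  simp only [map_add, map_sum, map_smul, LinearMap.add_apply, LinearMap.sum_apply,
    LinearMap.smul_apply, smul_eq_mul, C.U01, C.U11, C.WU, mul_zero, add_zero]
  rw [Finset.sum_eq_zero]
  · ring
  · intro P hP
    rw [C.tU hP, C.tU hP, C.tU hP]
    ring

theorem tau_W0 (y : M) (a b c : F[X] → ℤ_[2]) :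
    C.B (C.tau y a b c) (C.W 0) = 6 * C.B y (C.W 0) := by
  unfold tau
  simp only [map_add, map_sum, map_smul, LinearMap.add_apply, LinearMap.sum_apply,
    LinearMap.smul_apply, smul_eq_mul, C.W00, C.W10, C.UW, mul_zero, add_zero]
  rw [Finset.sum_eq_zero]
  · ring
  · intro P hP
    rw [C.tW hP, C.tW hP, C.tW hP]
    ring

theorem tau_W1 (y : M) (a b c : F[X] → ℤ_[2]) :
    C.B (C.tau y a b c) (C.W 1) = 6 * C.B y (C.W 1) := by
  unfold tau
  simp only [map_add, map_sum, map_smul, LinearMap.add_apply, LinearMap.sum_apply,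
    LinearMap.smul_apply, smul_eq_mul, C.W01, C.W11, C.UW, mul_zero, add_zero]
  rw [Finset.sum_eq_zero]
  · ring
  · intro P hP
    rw [C.tW hP, C.tW hP, C.tW hP]
    ring

theorem tau_t (y : M) (a b c : F[X] → ℤ_[2]) {Q : F[X]} (hQ : Q ∈ C.I)
    (h0 : C.B y (C.t Q 0) = Q.natDegree * a Q) (h1 : C.B y (C.t Q 1) = Q.natDegree * c Q)
    (h2 : C.B y (C.t Q 2) = Q.natDegree * (2 * b Q)) (j : Fin 3) :
    C.B (C.tau y a b c) (C.t Q j) = 6 * C.B y (C.t Q j) := by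
  unfold tau
  simp only [map_add, map_sum, map_smul, LinearMap.add_apply, LinearMap.sum_apply,
    LinearMap.smul_apply, smul_eq_mul, C.Ut Q hQ, C.Wt Q hQ, mul_zero, add_zero, zero_add]
  rw [Finset.sum_eq_single Q]
  · rw [C.tt Q hQ, C.tt Q hQ, C.tt Q hQ]
    fin_cases j
    · simp only [Fin.zero_eta]
      rw [h0]
      simp
      ring
    · simp only [Fin.mk_one]
      rw [h1]
      simp
      ring
    · simp only [Fin.reduceFinMk]
      rw [h2]
      simp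
      ring
  · intro P hP hPQ
    rw [C.tQ P hP Q hQ hPQ, C.tQ P hP Q hQ hPQ, C.tQ P hP Q hQ hPQ]
    ring
  · intro h; exact absurd hQ h

theorem proj (y : M) (hy : C.Fr y = y) (a b c : F[X] → ℤ_[2]) (w : ℤ_[2])
    (h0 : ∀ P ∈ C.I, C.B y (C.t P 0) = P.natDegree * a P)
    (h1 : ∀ P ∈ C.I, C.B y (C.t P 1) = P.natDegree * c P)
    (h2 : ∀ P ∈ C.I, C.B y (C.t P 2) = P.natDegree * (2 * b P))
    (hw : C.B y y = (C.chi - 2) * C.B y (C.U 1) + 2 * w) :
    ∃ z τ : M, C.Fr z = z ∧ (6 : ℤ_[2]) • y = z + τ ∧ τ ∈ C.Triv ∧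
      (∀ i, C.B z (C.U i) = 0) ∧ (∀ i, C.B z (C.W i) = 0) ∧
      (∀ P ∈ C.I, ∀ i, C.B z (C.t P i) = 0) ∧
      C.B z z = 12 * (3 * C.chi * (C.B y (C.U 1) - C.B y (C.U 1) ^ 2) - 6 * C.B y (C.U 1) + 6 * w -
        6 * C.B y (C.U 1) * C.B y (C.U 0) +
        3 * ∑ P ∈ C.I, (P.natDegree : ℤ_[2]) * (a P ^ 2 + 3 * b P ^ 2 + 2 * c P ^ 2 +
          2 * a P * b P + 2 * a P * c P + 4 * b P * c P) +
        6 * C.B y (C.W 0) ^ 2 + 6 * C.B y (C.W 1) * C.B y (C.W 0) + 2 * C.B y (C.W 1) ^ 2) := by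
  have hτ := C.tau_mem y a b c
  set τ := C.tau y a b c with hτd
  have zU : ∀ i, C.B ((6 : ℤ_[2]) • y - τ) (C.U i) = 0 := by
    intro i
    rw [map_sub, map_smul, LinearMap.sub_apply, LinearMap.smul_apply, smul_eq_mul]
    fin_cases i
    · simp only [Fin.zero_eta]
      rw [C.tau_U0, sub_self]
    · simp only [Fin.mk_one]
      rw [C.tau_U1, sub_self]
  have zW : ∀ i, C.B ((6 : ℤ_[2]) • y - τ) (C.W i) = 0 := by
    intro i
    rw [map_sub, map_smul, LinearMap.sub_apply, LinearMap.smul_apply, smul_eq_mul]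
    fin_cases i
    · simp only [Fin.zero_eta]
      rw [C.tau_W0, sub_self]
    · simp only [Fin.mk_one]
      rw [C.tau_W1, sub_self]
  have zt : ∀ P ∈ C.I, ∀ i, C.B ((6 : ℤ_[2]) • y - τ) (C.t P i) = 0 := by
    intro P hP i
    rw [map_sub, map_smul, LinearMap.sub_apply, LinearMap.smul_apply, smul_eq_mul,
      C.tau_t y a b c hP (h0 P hP) (h1 P hP) (h2 P hP), sub_self]
  refine ⟨(6 : ℤ_[2]) • y - τ, τ, ?_, ?_, hτ, zU, zW, zt, ?_⟩
  · rw [map_sub, map_smul, hy, C.triv_fix hτ]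
  · rw [sub_add_cancel]
  · have e1 : C.B ((6 : ℤ_[2]) • y - τ) ((6 : ℤ_[2]) • y - τ) =
        6 * C.B ((6 : ℤ_[2]) • y - τ) y := by
      rw [map_sub (C.B ((6 : ℤ_[2]) • y - τ)), C.triv_orth hτ zU zW zt, sub_zero, map_smul,
        smul_eq_mul]
    have e2 : C.B ((6 : ℤ_[2]) • y - τ) y = 6 * C.B y y - C.B y τ := by
      rw [map_sub, map_smul, LinearMap.sub_apply, LinearMap.smul_apply, smul_eq_mul, C.symm τ y]
    have e3 : C.B y τ = 12 * C.B y (C.U 1) * C.B y (C.U 0) + 6 * C.chi * C.B y (C.U 1) ^ 2 -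
        6 * ∑ P ∈ C.I, (P.natDegree : ℤ_[2]) * (a P ^ 2 + 3 * b P ^ 2 + 2 * c P ^ 2 +
          2 * a P * b P + 2 * a P * c P + 4 * b P * c P) -
        12 * C.B y (C.W 1) * C.B y (C.W 0) - 12 * C.B y (C.W 0) ^ 2 - 4 * C.B y (C.W 1) ^ 2 := by
      rw [hτd]
      unfold tau
      simp only [map_add, map_sum, map_smul, smul_eq_mul]
      have e4 : ∑ P ∈ C.I, (-6 * (a P + b P + c P) * C.B y (C.t P 0) +
          -6 * (a P + 2 * b P + 2 * c P) * C.B y (C.t P 1) +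
          -3 * (a P + 3 * b P + 2 * c P) * C.B y (C.t P 2)) =
          -6 * ∑ P ∈ C.I, (P.natDegree : ℤ_[2]) * (a P ^ 2 + 3 * b P ^ 2 + 2 * c P ^ 2 +
          2 * a P * b P + 2 * a P * c P + 4 * b P * c P) := by
        rw [Finset.mul_sum]
        refine Finset.sum_congr rfl fun P hP => ?_
        rw [h0 P hP, h1 P hP, h2 P hP]
        ring
      rw [e4]
      ring
    rw [e1, e2, e3, hw]
    ring

end Coh

end Pool.RKO
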