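import Pool.Agent.H59.R1.CohC

/-!
# Rank one over `F(t)`: the eigenvalue 1 of Frobenius has multiplicity one more than the trivial one
-/

set_option autoImplicit false
set_option linter.unusedSectionVars false
set_option linter.unusedVariables false

namespace Pool.RKO

open Polynomial Matrix Pool.AVR Pool.AVS Pool.RZ Pool.PRL TensorProduct

theorem two_dvd_iff (x : ℤ_[2]) : 2 ∣ x ↔ PadicInt.toZMod x = 0 := by
  have h1 : PadicInt.toZMod x = 0 ↔ x ∈ RingHom.ker (PadicInt.toZMod (p := 2)) := Iff.rfl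
  rw [h1, PadicInt.ker_toZMod, PadicInt.maximalIdeal_eq_span_p, Ideal.mem_span_singleton]
  norm_num

theorem disc_tw' {R : Type} [CommRing R] (D a b c : R) :
    disc (D * a) (D ^ 2 * b) (D ^ 3 * c) = D ^ 6 * disc a b c := by
  unfold disc
  ring

theorem eq_one_l {F : Type} [Field F] {g : F[X] × F[X] × F[X]} {a b : (Alg g)ˣ ⧸ Sq g}
    (h : a * b = a) : b = 1 := by
  have h2 := congrArg (fun x => a⁻¹ * x) h
  simp only [← mul_assoc] at h2
  rw [inv_mul_cancel, one_mul] at h2
  exact h2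

theorem eq_one_r {F : Type} [Field F] {g : F[X] × F[X] × F[X]} {a b : (Alg g)ˣ ⧸ Sq g}
    (h : b * a = a) : b = 1 := by
  have h2 := congrArg (fun x => x * a⁻¹) h
  simp only [mul_assoc] at h2
  rw [mul_inv_cancel, mul_one] at h2
  exact h2

/-- The two kinds of places in `I`. -/
theorem r1_I {F : Type} [Field F] {g : F[X] × F[X] × F[X]} (h : R1 g) :
    ((X : F[X]) ^ 2 ∣ disc g.1 g.2.1 g.2.2) ∧
    ∀ P : F[X], P.Monic → Irreducible P → P ^ 2 ∣ disc g.1 g.2.1 g.2.2 → P = X ∨
      Even P.natDegree := by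
  obtain ⟨-, -, n, d, f, rfl, hf, -, -, -, hd⟩ := h
  have hdisc : disc (tw (X * d) f).1 (tw (X * d) f).2.1 (tw (X * d) f).2.2 =
      (X * d) ^ 6 * disc f.1 f.2.1 f.2.2 := disc_tw' (X * d) f.1 f.2.1 f.2.2
  rw [hdisc]
  refine ⟨?_, ?_⟩
  · refine Dvd.dvd.mul_right ?_ _
    rw [mul_pow]
    exact Dvd.dvd.mul_right (pow_dvd_pow X (by norm_num)) _
  · intro P hPm hPi hPd
    have hPp : Prime P := hPi.prime
    by_cases h1 : P ∣ X * d
    · rcases hPp.dvd_or_dvd h1 with h2 | h2
      · left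
        exact Polynomial.eq_of_monic_of_associated hPm monic_X (hPi.associated_of_dvd irreducible_X h2)
      · right
        exact (hd P hPm hPi h2).1
    · exfalso
      have h2 : P ^ 2 ∣ disc f.1 f.2.1 f.2.2 := by
        refine (IsCoprime.dvd_of_dvd_mul_left ?_ hPd)
        exact (hPi.coprime_iff_not_dvd.mpr h1).pow
      have hsq : Squarefree (disc f.1 f.2.1 f.2.2) := hf.2.1
      have := hsq P (by rw [← sq]; exact h2)
      exact hPi.not_isUnit this

namespace Coh

variable {F : Type} [Field F] {g : F[X] × F[X] × F[X]} {M : Type} [AddCommGroup M]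
  [Module ℤ_[2] M] [Module.Free ℤ_[2] M] [Module.Finite ℤ_[2] M] (C : Coh g M)

theorem parity (h : R1 g) (chi m u w w0 w1 : ℤ_[2]) (a b c : F[X] → ℤ_[2]) (hab : ¬ 2 ∣ a X + b X) :
    12 * (3 * chi * (m - m ^ 2) - 6 * m + 6 * w - 6 * m * u +
        3 * ∑ P ∈ C.I, (P.natDegree : ℤ_[2]) * (a P ^ 2 + 3 * b P ^ 2 + 2 * c P ^ 2 +
          2 * a P * b P + 2 * a P * c P + 4 * b P * c P) +
        6 * w0 ^ 2 + 6 * w1 * w0 + 2 * w1 ^ 2) ≠ 0 := by
  refine mul_ne_zero (by norm_num) ?_
  intro h0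
  apply hab
  rw [two_dvd_iff]
  have hX : (X : F[X]) ∈ C.I := (C.hI X).mpr ⟨monic_X, irreducible_X, (r1_I h).1⟩
  have h1 := congrArg (PadicInt.toZMod (p := 2)) h0
  have h2 : (2 : ZMod 2) = 0 := rfl
  have h3 : (3 : ZMod 2) = 1 := rfl
  have h4 : (4 : ZMod 2) = 0 := rfl
  have h6 : (6 : ZMod 2) = 0 := rfl
  have hsum : (∑ P ∈ C.I, ((P.natDegree : ZMod 2)) * ((PadicInt.toZMod (a P)) ^ 2 +
      (PadicInt.toZMod (b P)) ^ 2)) =
      (PadicInt.toZMod (a X)) ^ 2 + (PadicInt.toZMod (b X)) ^ 2 := by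
    rw [Finset.sum_eq_single X]
    · rw [natDegree_X]; simp
    · intro P hP hPX
      obtain ⟨hm, hi, hd⟩ := (C.hI P).mp hP
      have := ((r1_I h).2 P hm hi hd).resolve_left hPX
      rw [(ZMod.natCast_eq_zero_iff_even).mpr this, zero_mul]
    · intro hh; exact absurd hX hh
  simp only [map_add, map_sub, map_mul, map_sum, map_pow, map_natCast, map_ofNat, map_zero, h2, h3,
    h4, h6, zero_mul, add_zero, sub_zero, one_mul, hsum] at h1
  rw [map_add]
  have key : ∀ p q x y : ZMod 2, p * (q - q ^ 2) + (x ^ 2 + y ^ 2) = 0 → x + y = 0 := by decide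
  exact key _ _ _ _ h1

theorem mult_one (h : R1 g) :
    (C.Fr.charpoly.map (algebraMap ℤ_[2] ℚ_[2])).rootMultiplicity 1 = 5 + 3 * C.I.card := by
  have hSel := h.1
  have hfin : (Sel g).Finite := Set.finite_of_ncard_ne_zero (by rw [hSel]; norm_num)
  have h1S : (1 : (Alg g)ˣ ⧸ Sq g) ∈ Sel g := by
    have h0 : C.cl 0 = 1 := by
      have := C.cl_mul 0 0 (map_zero _) (map_zero _)
      rw [add_zero] at this
      exact eq_one_l this.symm
    rw [← h0]
    exact C.cl_sel 0 (map_zero _)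
  have huniq : ∀ ξ ∈ Sel g, ∀ η ∈ Sel g, ξ ≠ 1 → η ≠ 1 → ξ = η := by
    intro ξ hξ η hη h1 h2
    by_contra hne
    have h3 : ({1, ξ, η} : Set ((Alg g)ˣ ⧸ Sq g)) ⊆ Sel g := by
      rintro x (rfl | rfl | rfl)
      · exact h1S
      · exact hξ
      · exact hη
    have h4 := Set.ncard_le_ncard h3 hfin
    have h5 : ({1, ξ, η} : Set ((Alg g)ˣ ⧸ Sq g)).ncard = 3 :=
      Set.ncard_eq_three.mpr ⟨1, ξ, η, Ne.symm h1, Ne.symm h2, hne, rfl⟩
    omega
  -- the image of `cl` is not trivial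
  obtain ⟨y, hy, hy1⟩ : ∃ y, C.Fr y = y ∧ C.cl y ≠ 1 := by
    by_contra hno
    push Not at hno
    obtain ⟨k, hk⟩ := C.cl_sq
    have himg : C.cl '' {x | C.Fr x = x} = {1} := by
      ext ξ
      constructor
      · rintro ⟨x, hx, rfl⟩
        exact hno x hx
      · rintro rfl
        exact ⟨0, map_zero _, hno 0 (map_zero _)⟩
    rw [himg, Set.ncard_singleton, mul_one, hSel] at hk
    have hk2 : k < 2 := by nlinarith
    interval_cases k <;> omega
  choose! a b c h0 h1 h2 using fun P hP => C.dvt P hP y hy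
  obtain ⟨w, hw⟩ := C.wu y
  obtain ⟨z, τ, hz, hyz, hτ, zU, zW, zt, hzz⟩ := C.proj y hy a b c w h0 h1 h2 hw
  have hX : (X : F[X]) ∈ C.I := (C.hI X).mpr ⟨monic_X, irreducible_X, (r1_I h).1⟩
  have hab : ¬ 2 ∣ a X + b X := by
    have hprime : (Ideal.span {(X : F[X])}).IsPrime :=
      (Ideal.span_singleton_prime X_ne_zero).mpr prime_X
    have hbot : Ideal.span {(X : F[X])} ≠ ⊥ := by
      rw [Ne, Ideal.span_singleton_eq_bot]
      exact X_ne_zero
    have := C.cl_X ⟨Ideal.span {(X : F[X])}, hprime, hbot⟩ rfl y hy (a X) (b X)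
      (by rw [h0 X hX, natDegree_X]; simp) (by rw [h2 X hX, natDegree_X]; simp)
    rw [← this]
    exact h.2.1 _ rfl _ (C.cl_sel y hy) hy1
  refine C.mult y z τ hy hz hyz hτ zU zW zt ?_ ?_ ?_
  · rw [hzz]
    exact C.parity h _ _ _ _ _ _ a b c hab
  · intro x hx
    set N : Submodule ℤ_[2] M := LinearMap.ker (C.Fr - LinearMap.id) with hN
    have hNm : ∀ x, x ∈ N ↔ C.Fr x = x := by
      intro x
      rw [hN, LinearMap.mem_ker, LinearMap.sub_apply, LinearMap.id_apply, sub_eq_zero]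
    have hle : N ≤ C.Triv ⊔ Submodule.span ℤ_[2] {y} := by
      refine Submodule.le_of_le_smul_of_le_jacobson_bot (I := Ideal.span {(2 : ℤ_[2])})
        (IsNoetherian.noetherian N) ?_ ?_
      · rw [IsLocalRing.jacobson_eq_maximalIdeal _ bot_ne_top, PadicInt.maximalIdeal_eq_span_p]
        norm_num
      · intro x hx
        have hx' := (hNm x).mp hx
        by_cases hx1 : C.cl x = 1
        · obtain ⟨τ', hτ', z', hz', hxz⟩ := C.cl_ker x hx' hx1
          rw [hxz]
          refine add_mem (Submodule.mem_sup_left (Submodule.mem_sup_left hτ')) ?_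
          refine Submodule.mem_sup_right ?_
          rw [← Nat.cast_smul_eq_nsmul ℤ_[2]]
          exact Submodule.smul_mem_smul (Ideal.subset_span (by simp)) ((hNm z').mpr hz')
        · have heq := huniq _ (C.cl_sel x hx') _ (C.cl_sel y hy) hx1 hy1
          have hxy : C.Fr (x - y) = x - y := by rw [map_sub, hx', hy]
          have h3 : C.cl (x - y) = 1 := by
            have h4 := C.cl_mul (x - y) y hxy hy
            rw [sub_add_cancel, heq] at h4
            exact eq_one_r h4.symm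
          obtain ⟨τ', hτ', z', hz', hxz⟩ := C.cl_ker (x - y) hxy h3
          have h5 : x = τ' + y + 2 • z' := by
            rw [← sub_add_cancel x y, hxz]
            abel
          rw [h5]
          refine add_mem (Submodule.mem_sup_left (add_mem (Submodule.mem_sup_left hτ')
            (Submodule.mem_sup_right (Submodule.mem_span_singleton_self y)))) ?_
          refine Submodule.mem_sup_right ?_
          rw [← Nat.cast_smul_eq_nsmul ℤ_[2]]
          exact Submodule.smul_mem_smul (Ideal.subset_span (by simp)) ((hNm z').mpr hz')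
    exact hle ((hNm x).mpr hx)
  · intro P hP
    exact (((C.hI P).mp hP).2.1).natDegree_pos

end Coh

end Pool.RKO
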