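import Pool.Agent.H59.R1.Defs
import Pool.Agent.H40.PRL.DNP
import Pool.Agent.H40.PRL.TWP
import Pool.Agent.H59.RZ.DN

/-!
# DN1: lower bound for the number of curves of the family
-/

set_option autoImplicit false

namespace Pool.RKO

open Polynomial Matrix Pool.AVR Pool.AVS Pool.RZ Pool.PRL

open Pool.PRL.DNP Pool.AVR.H10DNF Pool.RZ.DN in
theorem dn1 (hEQF : Pool.AVR.EQFStmt) (hTAI : Pool.AVR.TAIStmt) (hTA5 : Pool.AVR.TA5Stmt)
    (hTOP : Pool.AVR.TOPStmt) (hCBP : CBPStmt) : DN1Stmt := by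
  classical
  intro F _ _ h2 T hTE ε hε
  have hTT : TAIc F := by
    by_cases h3 : (3 : F) = 0
    · exact hTAI F h3
    · exact hTA5 F h2 h3
  obtain ⟨D, N₀, hD⟩ := hTT ε hε
  have hT : ∀ P ∈ T, P.Monic ∧ Irreducible P := hTE
  refine ⟨D, fun S hS hSD => ?_⟩
  have hS' : ∀ P ∈ S, P.Monic ∧ Irreducible P := fun P hP => ⟨(hS P hP).1, (hS P hP).2.1⟩
  set M : F[X] := MT T S with hMdef
  have hM : M.Monic := MT_monic T S hT hS'
  have hFmF : ∀ n, (FmT F n T).Finite := fun n =>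
    (Fam_finite n).subset ((Set.sep_subset _ _).trans (Set.sep_subset _ _))
  refine ⟨max N₀ (M.natDegree + 1), fun n hn => ⟨hFmF n, ?_⟩⟩
  have hnN : N₀ ≤ n := (le_max_left _ _).trans hn
  have hnM : M.natDegree + 1 ≤ n := (le_max_right _ _).trans hn
  set q : ℝ := (Nat.card F : ℝ) with hq
  have hq0 : 0 < q := by rw [hq]; exact_mod_cast Nat.card_pos
  set A : Set (F[X] × F[X] × F[X]) := {f ∈ Fam F n | (AdjoinRoot.mk M f.1, AdjoinRoot.mk M f.2.1,
    AdjoinRoot.mk M f.2.2) ∈ WT T S M ∧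
        (top (2 * n) f.1, top (4 * n) f.2.1, top (6 * n) f.2.2) ∈ V2 F} with hA
  set B : Set (F[X] × F[X] × F[X]) := {f ∈ Fam F n | ∃ P : F[X], P.Monic ∧ Irreducible P ∧
    D < P.natDegree ∧ P ^ 2 ∣ disc f.1 f.2.1 f.2.2} with hB
  have hcount := hEQF F n M hM.ne_zero (by omega) (by omega) (WT T S M) (V2 F)
  rw [← hA] at hcount
  have hBc : (B.ncard : ℝ) ≤ ε * q ^ (12 * n + 3) := hD n hnN
  have hAfin : A.Finite := (Fam_finite n).subset (Set.sep_subset _ _)
  have hBfin : B.Finite := (Fam_finite n).subset (Set.sep_subset _ _)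
  have hsub : A ⊆ FmT F n T ∪ B := by
    rintro f ⟨hf, hfW, hfV⟩
    by_cases hfB : f ∈ B
    · exact Or.inr hfB
    obtain ⟨hW1, hW2⟩ := hfW f rfl rfl rfl
    have hW3 : ∀ P ∈ T, T12P P f := fun P hP =>
      ((hCBP F h2 P (hT P hP).1 (hT P hP).2).1 f).2 (hW2 P hP)
    have hNR : NR (top3 n f) := hfV
    have hdne := disc_NR h2 hNR
    have hcoef : (disc f.1 f.2.1 f.2.2).coeff (12 * n) =
        disc (top3 n f).1 (top3 n f).2.1 (top3 n f).2.2 := by
      have h := (hTOP F n 0 (by omega)).2 f hf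
      have h' := congrArg (TrivSqZeroExt.fstHom F F F) h
      have hm := disc_map ((TrivSqZeroExt.fstHom F F F) : DualNumber F →+* F)
        (top (2 * n) f.1) (top (4 * n) f.2.1) (top (6 * n) f.2.2)
      exact h'.trans hm
    have hdeg : 12 * n ≤ (disc f.1 f.2.1 f.2.2).natDegree := by
      apply le_natDegree_of_ne_zero
      rw [hcoef]
      exact hdne
    have hne : disc f.1 f.2.1 f.2.2 ≠ 0 := by
      intro h0
      apply hdne
      rw [← hcoef, h0, coeff_zero]
    refine Or.inl ⟨⟨hf, ?_, by omega⟩, hW3, hNR⟩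
    rw [squarefree_iff_irreducible_sq_not_dvd_of_ne_zero hne]
    intro P hP hdvd
    set Q := normalize P with hQ
    have hass : Associated Q P := normalize_associated P
    have hQm : Q.Monic := monic_normalize hP.ne_zero
    have hQi : Irreducible Q := hass.symm.irreducible hP
    have hQd : Q ^ 2 ∣ disc f.1 f.2.1 f.2.2 := by
      refine dvd_trans ?_ hdvd
      rw [sq]
      exact mul_dvd_mul hass.dvd hass.dvd
    by_cases hdeg : Q.natDegree ≤ D
    · by_cases hQT : Q ∈ T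
      · exact TWP.disc_T h2 Q hQm hQi f (hW3 Q hQT) ((dvd_pow_self Q two_ne_zero).trans hQd)
      have hQS := hSD Q hQm hQi hdeg hQT
      have := hW1 Q hQS
      apply this
      rw [← disc_map, AdjoinRoot.mk_eq_zero]
      exact hQd
    · exact hfB ⟨hf, Q, hQm, hQi, by omega, hQd⟩
  have hle : (A.ncard : ℝ) ≤ (FmT F n T).ncard + B.ncard := by
    have h1 := (Set.ncard_le_ncard hsub ((hFmF n).union hBfin)).trans (Set.ncard_union_le _ _)
    exact_mod_cast h1
  set U : ℝ := ((∏ P ∈ T, (TP P).ncard : ℕ) : ℝ) with hU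
  set R : ℝ := (({t : F × F × F | NR t}.ncard : ℕ) : ℝ) with hR
  set G : ℝ := ((∏ P ∈ S, (GP P).ncard : ℕ) : ℝ) with hG
  have hWc : G * U ≤ ((WT T S M).ncard : ℝ) := by
    rw [hG, hU]
    exact_mod_cast WT_card T S hT hS
  have hVc : R * q ^ 3 ≤ ((V2 F).ncard : ℝ) := by
    rw [hR, hq]
    exact_mod_cast V2_card (F := F)
  have hcR : (A.ncard : ℝ) * (q ^ (3 * M.natDegree) * q ^ 6) =
      q ^ (12 * n + 3) * ((WT T S M).ncard * (V2 F).ncard) := by
    rw [hq]
    exact_mod_cast hcount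
  have hprod : ∏ P ∈ S, dens (AdjoinRoot (P ^ 2)) =
      G / q ^ (3 * ∑ P ∈ S, (P ^ 2).natDegree) := by
    have h1 : ∀ P ∈ S, dens (AdjoinRoot (P ^ 2)) =
        ((GP P).ncard : ℝ) / q ^ (3 * (P ^ 2).natDegree) := by
      intro P hP
      have : (Nat.card (AdjoinRoot (P ^ 2)) : ℝ) = q ^ (P ^ 2).natDegree := by
        rw [adj_card ((hS P hP).1.pow 2), hq]
        push_cast
        rfl
      unfold dens
      rw [this, ← pow_mul, mul_comm (P ^ 2).natDegree 3]
      rfl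
    rw [Finset.prod_congr rfl h1, Finset.prod_div_distrib, Finset.prod_pow_eq_pow_sum,
      ← Finset.mul_sum, hG]
    push_cast
    rfl
  have hprodT : ∏ P ∈ T, (q ^ P.natDegree - 1) / (2 * q ^ P.natDegree) =
      U / q ^ (3 * ∑ P ∈ T, P.natDegree) := by
    have h1 : ∀ P ∈ T, (q ^ P.natDegree - 1) / (2 * q ^ P.natDegree) =
        ((TP P).ncard : ℝ) / q ^ (3 * P.natDegree) := by
      intro P hP
      have h3 := (hCBP F h2 P (hT P hP).1 (hT P hP).2).2.2.1
      have h4 : 2 * ((TP P).ncard : ℝ) = q ^ (3 * P.natDegree) - q ^ (2 * P.natDegree) := h3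
      have hqd : 0 < q ^ P.natDegree := by positivity
      have e3 : q ^ (3 * P.natDegree) = (q ^ P.natDegree) ^ 3 := by
        rw [← pow_mul]
        congr 1
        ring
      have e2 : q ^ (2 * P.natDegree) = (q ^ P.natDegree) ^ 2 := by
        rw [← pow_mul]
        congr 1
        ring
      rw [e3, e2] at h4
      rw [e3, div_eq_div_iff (by positivity) (by positivity)]
      linear_combination (-(q ^ P.natDegree)) * h4
    rw [Finset.prod_congr rfl h1, Finset.prod_div_distrib, Finset.prod_pow_eq_pow_sum,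
      ← Finset.mul_sum, hU]
    push_cast
    rfl
  have hdd : ddT F T S = R / q ^ 3 * (U / q ^ (3 * ∑ P ∈ T, P.natDegree)) *
      (G / q ^ (3 * ∑ P ∈ S, (P ^ 2).natDegree)) := by
    unfold ddT d3
    rw [hprod, ← hq, hprodT]
  have hMd : q ^ (3 * M.natDegree) = q ^ (3 * ∑ P ∈ T, P.natDegree) *
      q ^ (3 * ∑ P ∈ S, (P ^ 2).natDegree) := by
    rw [hMdef, MT_deg T S hT hS', ← pow_add]
    congr 1
    ring
  have hR0 : 0 ≤ R := by rw [hR]; positivity
  have hU0 : 0 ≤ U := by rw [hU]; positivity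
  have hG0 : 0 ≤ G := by rw [hG]; positivity
  have hAlow : q ^ (12 * n + 3) * ddT F T S ≤ A.ncard := by
    have hden : 0 < q ^ (3 * M.natDegree) * q ^ 6 := by positivity
    have hAeq : (A.ncard : ℝ) = q ^ (12 * n + 3) * ((WT T S M).ncard * (V2 F).ncard) /
        (q ^ (3 * M.natDegree) * q ^ 6) := by
      rw [eq_div_iff hden.ne', hcR]
    rw [hAeq, le_div_iff₀ hden, hdd, hMd]
    have h3 : q ^ (12 * n + 3) * (R / q ^ 3 * (U / q ^ (3 * ∑ P ∈ T, P.natDegree)) *
        (G / q ^ (3 * ∑ P ∈ S, (P ^ 2).natDegree))) *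
        (q ^ (3 * ∑ P ∈ T, P.natDegree) * q ^ (3 * ∑ P ∈ S, (P ^ 2).natDegree) * q ^ 6) =
        q ^ (12 * n + 3) * ((G * U) * (R * q ^ 3)) := by
      field_simp
    rw [h3]
    gcongr
  have : q ^ (12 * n + 3) * (ddT F T S - ε) =
      q ^ (12 * n + 3) * ddT F T S - ε * q ^ (12 * n + 3) := by ring
  rw [this]
  linarith

end Pool.RKO
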