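import Pool.Agent.H75.PRL.S7

/-!
# Rank one over `F(t)`: definitions

`F` finite of odd order, `K = F(t)`.  `T` is a finite set of monic irreducible polynomials, of any
degree.  `g` is the twist of `f` by `X · d`, where `d` is a product of primes of even degree; the
unique nontrivial class of the 2-Selmer group of `g` is not locally trivial at `X`.
-/

set_option autoImplicit false

namespace Pool.RKO

open Polynomial Matrix Pool.AVR Pool.AVS Pool.RZ Pool.PRL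

section

variable {F : Type} [Field F]

/-- `T` consists of monic irreducible polynomials. -/
def MoT (T : Finset F[X]) : Prop := ∀ P ∈ T, P.Monic ∧ Irreducible P

/-- The class `ξ` is trivial over the completion at `v`. -/
def LTr (v : IsDedekindDomain.HeightOneSpectrum F[X]) (g : F[X] × F[X] × F[X])
    (ξ : (Alg g)ˣ ⧸ Sq g) : Prop :=
  ∃ (u : (Alg g)ˣ) (h : (RatFunc F)[X]) (s : (v.adicCompletion (RatFunc F))[X]),
    (QuotientGroup.mk u : (Alg g)ˣ ⧸ Sq g) = ξ ∧ (u : Alg g) = AdjoinRoot.mk (cubK g) h ∧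
    (cubK g).map (algebraMap (RatFunc F) (v.adicCompletion (RatFunc F))) ∣
      h.map (algebraMap (RatFunc F) (v.adicCompletion (RatFunc F))) - s ^ 2

/-- The 2-Selmer group of `g` has two elements and the nontrivial one is not locally trivial at
`t = 0`; `g` is the twist by `t d` of an equation `f` with squarefree discriminant (also at
infinity), `d` is squarefree and its prime factors have even degree, `f` is the product of a linear
and of an irreducible quadratic polynomial modulo `t` and modulo these primes, and is irreducible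
at infinity. -/
def R1 (g : F[X] × F[X] × F[X]) : Prop :=
  (Sel g).ncard = 2 ∧
  (∀ v : IsDedekindDomain.HeightOneSpectrum F[X], v.asIdeal = Ideal.span {(X : F[X])} →
    ∀ ξ ∈ Sel g, ξ ≠ 1 → ¬ LTr v g ξ) ∧
  ∃ (n : ℕ) (d : F[X]) (f : F[X] × F[X] × F[X]), g = tw (X * d) f ∧ f ∈ SF F n ∧
    NR (top3 n f) ∧ T12P X f ∧ Squarefree d ∧
    ∀ P : F[X], P.Monic → Irreducible P → P ∣ d → Even P.natDegree ∧ T12P P f

open Classical in
/-- The twists by `X · pr S`, `S ∈ Sl T1 T2`, of the elements of `A`. -/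
def ZB (T1 T2 : Finset F[X]) (A : Set (F[X] × F[X] × F[X])) : Set (F[X] × F[X] × F[X]) :=
  {g | ∃ f ∈ A, ∃ S ∈ Sl T1 T2, g = tw (pr (insert X S)) f}

open Classical in
/-- The family: curves of height `m`. -/
def ZR (e : ℕ) (T1 T2 : Finset F[X]) (m : ℕ) : Set (F[X] × F[X] × F[X]) :=
  ZB T1 T2 (FmT F (m - e * (T1.card / 2 + 1) - 1) (insert X (T1 ∪ T2)))

open Classical in
/-- The law for the twists of `f` by `pr S`, and the twists by `X · pr S` of those with trivial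
2-Selmer group have 2-Selmer group of order two. -/
def Gd (ε : ℝ) (T1 T2 : Finset F[X]) (f : F[X] × F[X] × F[X]) : Prop :=
  LawF ε T1 T2 f ∧ ∀ S ∈ Sl T1 T2, (Sel (tw (pr S) f)).ncard = 1 →
    (Sel (tw (pr (insert X S)) f)).ncard = 2

open Classical in
/-- `Z` is a subfamily of `S` of positive density, with `R1` for a proportion `0.2097 - ε`. -/
def PosR (ε c : ℝ) (Z S : Set (F[X] × F[X] × F[X])) : Prop :=
  Z ⊆ S ∧ S.Finite ∧ 0 < S.ncard ∧ c * S.ncard ≤ Z.ncard ∧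
    (0.2097 - ε) * Z.ncard ≤ {g | g ∈ Z ∧ R1 g}.ncard

end

open Classical in
/-- The main theorem. -/
def MainR1 (F : Type) [Field F] : Prop :=
  ∀ ε : ℝ, 0 < ε →
    (∀ k : ℕ, ∃ (e : ℕ) (T1 T2 : Finset F[X]), Adm e T1 T2 ∧ T1.card = k) ∧
    ∃ k0 : ℕ, ∀ (e : ℕ) (T1 T2 : Finset F[X]), Adm e T1 T2 → Odd T1.card → k0 ≤ T1.card →
    ∃ c : ℝ, 0 < c ∧ ∃ N : ℕ, ∀ m : ℕ, N ≤ m →
      PosR ε c (ZR e T1 T2 m) (Ell F m) ∧
      (∀ g ∈ ZR e T1 T2 m, R1 g → AddGroup.FG (EK g) ∧ rk g ≤ 1) ∧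
      ((3 : F) ≠ 0 → PosR ε c {g | g ∈ ZR e T1 T2 m ∧ g.1 = 0} (Sht F m) ∧
        {g | g ∈ ZR e T1 T2 m ∧ g.1 = 0} ⊆ MinE F m)

/-! ### The modules -/

open Classical in
/-- QR1: the number of primes of type `(1, 1)` is even, and the types are well defined. -/
def QR1Stmt : Prop :=
  ∀ (F : Type) [Field F] [Finite F], (2 : F) ≠ 0 → ∀ (n : ℕ) (T : Finset F[X]), 1 ≤ n → MoT T →
    ∀ f ∈ FmT F n T, ∀ ξ ∈ Rc f T, (∀ P ∈ T, ∃! x : Ty, TyC f P x ξ) ∧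
      Even {P | P ∈ T ∧ TyC f P (1, 1) ξ}.ncard

/-- LT3: at a simple divisor `P` of `d`, the classes of type `(0, 0)` and `(1, 0)` are classes of
points of the twist. -/
def LT3Stmt : Prop :=
  ∀ (F : Type) [Field F] [Finite F], (2 : F) ≠ 0 → ∀ P : F[X], P.Monic → Irreducible P →
    ∀ (f : F[X] × F[X] × F[X]) (d : F[X]), (cubK f).Separable →
    P ∣ d → ¬ P ^ 2 ∣ d →
    ∀ (L : Type) [Field L] (O : ValuationSubring L) (ι : RatFunc F →+* L),
    IsComp F (IP P) (rf P) L O ι → ∀ h : (RatFunc F)[X], IsCoprime h (cubK f) →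
    IsSquare (Algebra.norm (RatFunc F) (AdjoinRoot.mk (cubK f) h)) →
    Typ P f (0, 0) h ∨ Typ P f (1, 0) h → LSD ι d f h

/-- SQI: at infinity every class of square norm is a square. -/
def SQIStmt : Prop :=
  ∀ (F : Type) [Field F] [Finite F], (2 : F) ≠ 0 → ∀ (n : ℕ) (f : F[X] × F[X] × F[X]),
    f ∈ Fam F n → NR (top3 n f) →
    ∀ (L : Type) [Field L] (O : ValuationSubring L) (ι : RatFunc F →+* L),
    IsComp F (Iinf F) (RatFunc.X)⁻¹ L O ι → ∀ h : (RatFunc F)[X], IsCoprime h (cubK f) →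
    IsSquare (Algebra.norm (RatFunc F) (AdjoinRoot.mk (cubK f) h)) →
    ∃ s : L[X], (cubK f).map ι ∣ h.map ι - s ^ 2

/-- LI3: at infinity every class of square norm is the class of a point of the twist. -/
def LI3Stmt : Prop :=
  ∀ (F : Type) [Field F] [Finite F], (2 : F) ≠ 0 → ∀ (n : ℕ) (f : F[X] × F[X] × F[X]),
    f ∈ Fam F n → NR (top3 n f) → ∀ d : F[X], d ≠ 0 →
    ∀ (L : Type) [Field L] (O : ValuationSubring L) (ι : RatFunc F →+* L),
    IsComp F (Iinf F) (RatFunc.X)⁻¹ L O ι → ∀ h : (RatFunc F)[X], IsCoprime h (cubK f) →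
    IsSquare (Algebra.norm (RatFunc F) (AdjoinRoot.mk (cubK f) h)) → LSD ι d f h

/-- SE1: the 2-Selmer groups of the twists, in terms of types. -/
def SE1Stmt : Prop :=
  ∀ (F : Type) [Field F] [Finite F], (2 : F) ≠ 0 → ∀ (n : ℕ) (T : Finset F[X])
    (f : F[X] × F[X] × F[X]), 1 ≤ n → MoT T → f ∈ FmT F n T → ∀ S ⊆ T,
    ∃ e : ((Alg f)ˣ ⧸ Sq f) ≃* ((Alg (tw (pr S) f))ˣ ⧸ Sq (tw (pr S) f)),
      (∀ (u : (Alg f)ˣ) (u' : (Alg (tw (pr S) f))ˣ) (h : (RatFunc F)[X]),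
        (u : Alg f) = AdjoinRoot.mk (cubK f) h →
        (u' : Alg (tw (pr S) f)) = AdjoinRoot.mk (cubK (tw (pr S) f)) (scd (pr S) h) →
        e (QuotientGroup.mk u) = QuotientGroup.mk u') ∧
      ∀ ξ : (Alg f)ˣ ⧸ Sq f, e ξ ∈ Sel (tw (pr S) f) ↔
        ξ ∈ Rc f T ∧ ∀ P ∈ T, ∃ x : Ty, TyC f P x ξ ∧ (P ∈ S → x.2 = 0) ∧ (P ∉ S → x.1 = 0)

open Classical in
/-- ML1: the group of the types of the classes, and the Selmer groups of the twists. -/
def ML1Stmt : Prop :=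
  ∀ (F : Type) [Field F] [Finite F], (2 : F) ≠ 0 → ∀ (n : ℕ) (T : Finset F[X]), 1 ≤ n → MoT T →
    ∀ f ∈ FmT F n T, PatR f T (fun _ => 0) = ∅ →
    ∃ M : AddSubgroup ({P : F[X] // P ∈ T} → Ty), (∀ m ∈ M, qf m = 0) ∧
      Nat.card M = 2 ^ T.card ∧ (∀ m ∈ M, m ≠ 0 → (PatR f T (ex T m)).Nonempty) ∧
      ∀ S ⊆ T, (Sel (tw (pr S) f)).Finite ∧
        (Sel (tw (pr S) f)).ncard = {m | m ∈ M ∧ m ∈ LS (sb T S)}.ncard

open Classical in
/-- SWA: the switch. -/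
def SWAStmt : Prop :=
  ∀ (F : Type) [Field F] [Finite F], (2 : F) ≠ 0 → ∀ (n : ℕ) (T : Finset F[X]), 1 ≤ n → EvT T →
    ∀ f ∈ FmT F n (insert X T), PatR f T (fun _ => 0) = ∅ → ∀ S ⊆ T,
    (Sel (tw (pr S) f)).ncard = 1 → (Sel (tw (pr (insert X S)) f)).ncard = 2

open Classical in
/-- SWB: the nontrivial class after the switch. -/
def SWBStmt : Prop :=
  ∀ (F : Type) [Field F] [Finite F], (2 : F) ≠ 0 → ∀ (n : ℕ) (T : Finset F[X]), 1 ≤ n → EvT T →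
    ∀ f ∈ FmT F n (insert X T), ∀ S ⊆ T, (Sel (tw (pr S) f)).ncard = 1 →
    (Sel (tw (pr (insert X S)) f)).ncard = 2 → R1 (tw (pr (insert X S)) f)

open Classical in
/-- TW1: the twists. -/
def TW1Stmt : Prop :=
  ∀ (F : Type) [Field F] [Finite F], (2 : F) ≠ 0 → ∀ (n : ℕ) (T : Finset F[X]), EvT T →
    X ∉ T ∧ MoT (insert X T) ∧
    (∀ f, f ∈ FmT F n (insert X T) ↔ f ∈ FmT F n T ∧ T12P X f) ∧
    ∀ S ⊆ T, pr (insert X S) = X * pr S ∧ Squarefree (pr S) ∧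
      ∀ f ∈ FmT F n (insert X T),
        tw (pr (insert X S)) f ∈ Irr F (n + (pr S).natDegree / 2 + 1) ∧
        (f.1 = 0 → ∀ P : F[X], Irreducible P → ¬ (P ^ 4 ∣ (tw (pr (insert X S)) f).2.1 ∧
          P ^ 6 ∣ (tw (pr (insert X S)) f).2.2)) ∧
        ∀ S' ⊆ T, ∀ f' ∈ FmT F n (insert X T),
          tw (pr (insert X S)) f = tw (pr (insert X S')) f' → S = S' ∧ f = f'

/-- DN1: lower bound for the number of curves of the family. -/
def DN1Stmt : Prop :=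
  ∀ (F : Type) [Field F] [Finite F], (2 : F) ≠ 0 → ∀ T : Finset F[X], MoT T →
    ∀ ε : ℝ, 0 < ε → ∃ D : ℕ, ∀ S : Finset F[X], (∀ P ∈ S, P.Monic ∧ Irreducible P ∧ P ∉ T) →
    (∀ P : F[X], P.Monic → Irreducible P → P.natDegree ≤ D → P ∉ T → P ∈ S) →
    ∃ N : ℕ, ∀ n : ℕ, N ≤ n → (FmT F n T).Finite ∧
      (Nat.card F : ℝ) ^ (12 * n + 3) * (ddT F T S - ε) ≤ (FmT F n T).ncard

/-- UB1: upper bound for the number of curves of the family. -/
def UB1Stmt : Prop :=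
  ∀ (F : Type) [Field F] [Finite F], (2 : F) ≠ 0 → ∀ T : Finset F[X], MoT T →
    ∃ N : ℕ, ∀ n : ℕ, N ≤ n → (FmT F n T).Finite ∧
      ((FmT F n T).ncard : ℝ) ≤ (Nat.card F : ℝ) ^ (12 * n + 3) * ddT F T ∅

open Classical in
/-- CX1: a positive proportion, independent of `T`, of the family is of type `T12` at `X`. -/
def CX1Stmt : Prop :=
  ∀ (F : Type) [Field F] [Finite F], (2 : F) ≠ 0 → ∃ c : ℝ, 0 < c ∧ ∀ T : Finset F[X], EvT T →
    ∃ N : ℕ, ∀ n : ℕ, N ≤ n → (FmT F n T).Finite ∧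
      c * (FmT F n T).ncard ≤ (FmT F n (insert X T)).ncard

open Classical in
/-- LW1: almost all the curves of the family are good. -/
def LW1Stmt : Prop :=
  ∀ (F : Type) [Field F] [Finite F], (2 : F) ≠ 0 → ∀ ε : ℝ, 0 < ε → ∃ k0 : ℕ,
    ∀ (T1 T2 : Finset F[X]) (j : ℕ), Disjoint T1 T2 → EvT (T1 ∪ T2) → T2.card = 2 →
    T1.card = 2 * j + 1 → k0 ≤ j → ∃ N : ℕ, ∀ n : ℕ, N ≤ n →
    (FmT F n (insert X (T1 ∪ T2))).Finite ∧
    ({f | f ∈ FmT F n (insert X (T1 ∪ T2)) ∧ ¬ Gd ε T1 T2 f}.ncard : ℝ) ≤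
      ε * (FmT F n (insert X (T1 ∪ T2))).ncard

open Classical in
/-- SH1: short equations. -/
def SH1Stmt : Prop :=
  ∀ (F : Type) [Field F] [Finite F], (2 : F) ≠ 0 → (3 : F) ≠ 0 → ∀ (n : ℕ) (ε : ℝ)
    (T1 T2 : Finset F[X]), EvT (T1 ∪ T2) →
    (FmT F n (insert X (T1 ∪ T2))).ncard = Nat.card F ^ (2 * n + 1) *
      {f | f ∈ FmT F n (insert X (T1 ∪ T2)) ∧ f.1 = 0}.ncard ∧
    {f | f ∈ FmT F n (insert X (T1 ∪ T2)) ∧ ¬ Gd ε T1 T2 f}.ncard = Nat.card F ^ (2 * n + 1) *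
      {f | (f ∈ FmT F n (insert X (T1 ∪ T2)) ∧ f.1 = 0) ∧ ¬ Gd ε T1 T2 f}.ncard

open Classical in
/-- FN1: from the law for one curve to the family. -/
def FN1Stmt : Prop :=
  ∀ (F : Type) [Field F] [Finite F], (2 : F) ≠ 0 → ∀ (ε : ℝ) (e n : ℕ) (T1 T2 : Finset F[X])
    (A : Set (F[X] × F[X] × F[X])),
    0 < ε → Adm e T1 T2 → Odd T1.card → 1 ≤ n → A ⊆ FmT F n (insert X (T1 ∪ T2)) →
    A.Finite → A.Nonempty →
    ({f | f ∈ A ∧ ¬ Gd ε T1 T2 f}.ncard : ℝ) ≤ ε * A.ncard →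
    ZB T1 T2 A ⊆ Irr F (n + e * (T1.card / 2 + 1) + 1) ∧ (ZB T1 T2 A).Finite ∧
    (ZB T1 T2 A).ncard = (Sl T1 T2).card * A.ncard ∧ 0 < (Sl T1 T2).card ∧
    (0.2097 - 3 * ε) * (ZB T1 T2 A).ncard ≤ {g | g ∈ ZB T1 T2 A ∧ R1 g}.ncard

/-- MN1: the main theorem from the modules. -/
def MN1Stmt : Prop :=
  ∀ (F : Type) [Field F] [Finite F], (2 : F) ≠ 0 → MainR1 F

end Pool.RKO
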