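import Pool.Agent.H59.R1.Defs
import Pool.Agent.H75.PRL.FIP

/-!
# FN1: from the law for one curve to the family
-/

set_option autoImplicit false

namespace Pool.RKO

open Polynomial Matrix Pool.AVR Pool.AVS Pool.RZ Pool.PRL

open FIP in
open Classical in
/-- Counting pairs. -/
theorem cntB {F : Type} [Field F] (hTW1 : TW1Stmt) [Finite F] (h2 : (2 : F) ≠ 0) {e n : ℕ}
    {T1 T2 : Finset F[X]} (ha : Adm e T1 T2) {A : Set (F[X] × F[X] × F[X])}
    (hAs : A ⊆ FmT F n (insert X (T1 ∪ T2))) (hA : A.Finite) (q : F[X] × F[X] × F[X] → Prop) :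
    {g | g ∈ ZB T1 T2 A ∧ q g}.Finite ∧
    {g | g ∈ ZB T1 T2 A ∧ q g}.ncard =
      ∑ f ∈ hA.toFinset, {S | S ∈ Sl T1 T2 ∧ q (tw (pr (insert X S)) f)}.ncard := by
  obtain ⟨-, -, -, hT⟩ := hTW1 F h2 n (T1 ∪ T2) (adm_ev ha)
  set A' := hA.toFinset with hAdef
  have hinj : Set.InjOn (fun x : (F[X] × F[X] × F[X]) × Finset F[X] => tw (pr (insert X x.2)) x.1)
      (A' ×ˢ Sl T1 T2 : Finset _) := by
    rintro ⟨f, S⟩ hx ⟨f', S'⟩ hx' hxx
    rw [Finset.mem_coe, Finset.mem_product] at hx hx'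
    have h4 := ((hT S (Sl_sub hx.2)).2.2 f (hAs (hA.mem_toFinset.1 hx.1))).2.2 S' (Sl_sub hx'.2)
      f' (hAs (hA.mem_toFinset.1 hx'.1)) hxx
    exact Prod.ext h4.2 h4.1
  have hset : {g | g ∈ ZB T1 T2 A ∧ q g} =
      (((A' ×ˢ Sl T1 T2).filter fun x => q (tw (pr (insert X x.2)) x.1)).image
        (fun x : (F[X] × F[X] × F[X]) × Finset F[X] => tw (pr (insert X x.2)) x.1) :
          Finset _) := by
    ext g
    simp only [Finset.coe_image, Finset.coe_filter, Finset.mem_product, Set.mem_image]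
    constructor
    · rintro ⟨⟨f, hf, S, hS, rfl⟩, hq⟩
      exact ⟨(f, S), ⟨⟨hA.mem_toFinset.2 hf, hS⟩, hq⟩, rfl⟩
    · rintro ⟨⟨f, S⟩, ⟨⟨hf, hS⟩, hq⟩, rfl⟩
      exact ⟨⟨f, hA.mem_toFinset.1 hf, S, hS, rfl⟩, hq⟩
  refine ⟨by rw [hset]; exact Finset.finite_toSet _, ?_⟩
  rw [hset, Set.ncard_coe_finset, Finset.card_image_of_injOn
    (hinj.mono (by exact_mod_cast Finset.filter_subset _ _))]
  have e1 : ∀ f, {S | S ∈ Sl T1 T2 ∧ q (tw (pr (insert X S)) f)}.ncard =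
      ((Sl T1 T2).filter fun S => q (tw (pr (insert X S)) f)).card := by
    intro f
    rw [← Set.ncard_coe_finset]
    congr 1
    ext S
    simp
  simp only [e1]
  rw [Finset.card_filter, Finset.sum_product]
  refine Finset.sum_congr rfl fun f _ => ?_
  rw [Finset.card_filter]

open FIP in
open Classical in
theorem fn1 (hTW1 : TW1Stmt) (hSWB : SWBStmt) (hTWP : TWPStmt) (hIDN : IDNStmt) : FN1Stmt := by
  intro F _ _ h2 ε e n T1 T2 A₀ hε ha ho hn hAs hfin hne hlaw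
  obtain ⟨_, _, _, _, hPR0, _, _⟩ := hIDN
  have hdis := adm_dis ha
  have hev := adm_ev ha
  obtain ⟨hXT, hMo, hFm, hT⟩ := hTW1 F h2 n (T1 ∪ T2) hev
  have hTP := hTWP F h2 n (T1 ∪ T2) hev
  set A := hfin.toFinset with hAdef
  have hAc : A₀.ncard = A.card := Set.ncard_eq_toFinset_card _ hfin
  have hS0 : 0 < (Sl T1 T2).card := by
    rcases Sl_card (T1 := T1) (T2 := T2) with h | h
    · exact h
    · rw [h] at ho
      exact absurd ho (by decide)
  have hS0' : (0 : ℝ) < (Sl T1 T2).card := by exact_mod_cast hS0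
  have hsub : ZB T1 T2 A₀ ⊆ Irr F (n + e * (T1.card / 2 + 1) + 1) := by
    rintro g ⟨f, hf, S, hS, rfl⟩
    have h3 := ((hT S (Sl_sub hS)).2.2 f (hAs hf)).1
    rwa [((hTP.1 S (Sl_sub hS)).2.2.1), deg_Sl ha hdis hS,
      Nat.mul_div_cancel_left _ two_pos] at h3
  have hcnt := fun q => cntB hTW1 h2 ha hAs hfin q
  have hZc : (ZB T1 T2 A₀).ncard = (Sl T1 T2).card * A.card := by
    have h3 := (hcnt (fun _ => True)).2
    simp only [and_true, Set.ofPred_mem_eq] at h3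
    rw [h3]
    have h4 : ∀ f ∈ hfin.toFinset, {S | S ∈ Sl T1 T2}.ncard = (Sl T1 T2).card := by
      intro f _
      exact Set.ncard_coe_finset _
    rw [Finset.sum_congr rfl h4, Finset.sum_const, smul_eq_mul, mul_comm]
  have hZfin : (ZB T1 T2 A₀).Finite := by
    have h3 := (hcnt (fun _ => True)).1
    simpa only [and_true, Set.ofPred_mem_eq] using h3
  refine ⟨hsub, hZfin, by rw [hZc, hAc], hS0, ?_⟩
  -- one good curve
  have hgood : ∀ f ∈ A, Gd ε T1 T2 f → (0.2097 - ε) * ((Sl T1 T2).card : ℝ) ≤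
      ({S | S ∈ Sl T1 T2 ∧ R1 (tw (pr (insert X S)) f)}.ncard : ℝ) := by
    intro f hf hG
    have hf' : f ∈ FmT F n (insert X (T1 ∪ T2)) := hAs (hfin.mem_toFinset.1 hf)
    have h3 := hG.1.2.2 1
    rw [Finset.sum_range_one, pow_zero] at h3
    have h4 := (abs_le.1 h3).1
    have h5 : (0.2097 - ε) ≤ ({S | S ∈ Sl T1 T2 ∧ (Sel (tw (pr S) f)).ncard = 1}.ncard : ℝ) /
        (Sl T1 T2).card := by linarith
    rw [le_div_iff₀ hS0'] at h5
    refine h5.trans ?_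
    have hSfin : {S | S ∈ Sl T1 T2 ∧ R1 (tw (pr (insert X S)) f)}.Finite :=
      (Finset.finite_toSet (Sl T1 T2)).subset fun S hS => hS.1
    have h6 : {S | S ∈ Sl T1 T2 ∧ (Sel (tw (pr S) f)).ncard = 1}.ncard ≤
        {S | S ∈ Sl T1 T2 ∧ R1 (tw (pr (insert X S)) f)}.ncard :=
      Set.ncard_le_ncard (fun S hS => ⟨hS.1, hSWB F h2 n (T1 ∪ T2) hn hev f hf' S
        (Sl_sub hS.1) hS.2 (hG.2 S hS.1 hS.2)⟩) hSfin
    exact_mod_cast h6
  have hsum : ((A.filter fun f => Gd ε T1 T2 f).card : ℝ) * ((0.2097 - ε) * (Sl T1 T2).card) ≤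
      ({g | g ∈ ZB T1 T2 A₀ ∧ R1 g}.ncard : ℝ) := by
    rw [(hcnt R1).2]
    push_cast
    calc ((A.filter fun f => Gd ε T1 T2 f).card : ℝ) * ((0.2097 - ε) * (Sl T1 T2).card)
        = ∑ f ∈ A.filter fun f => Gd ε T1 T2 f, (0.2097 - ε) * ((Sl T1 T2).card : ℝ) := by
          rw [Finset.sum_const, nsmul_eq_mul]
      _ ≤ ∑ f ∈ A.filter fun f => Gd ε T1 T2 f,
          ({S | S ∈ Sl T1 T2 ∧ R1 (tw (pr (insert X S)) f)}.ncard : ℝ) :=
          Finset.sum_le_sum fun f hf => hgood f (Finset.mem_filter.1 hf).1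
            (Finset.mem_filter.1 hf).2
      _ ≤ ∑ f ∈ A, ({S | S ∈ Sl T1 T2 ∧ R1 (tw (pr (insert X S)) f)}.ncard : ℝ) :=
          Finset.sum_le_sum_of_subset_of_nonneg (Finset.filter_subset _ _)
            fun f _ _ => by positivity
  have hcard : (A.card : ℝ) - ε * A.card ≤ ((A.filter fun f => Gd ε T1 T2 f).card : ℝ) := by
    have h3 : ({f | f ∈ A₀ ∧ ¬ Gd ε T1 T2 f}.ncard : ℝ) =
        ((A.filter fun f => ¬ Gd ε T1 T2 f).card : ℝ) := by
      rw [← Set.ncard_coe_finset]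
      congr 2
      ext f
      simp only [Finset.coe_filter, hAdef, Set.Finite.mem_toFinset]
    have h4 : (A.filter fun f => Gd ε T1 T2 f).card + (A.filter fun f => ¬ Gd ε T1 T2 f).card =
        A.card := Finset.card_filter_add_card_filter_not _
    have h5 : ((A.filter fun f => Gd ε T1 T2 f).card : ℝ) +
        ((A.filter fun f => ¬ Gd ε T1 T2 f).card : ℝ) = A.card := by exact_mod_cast h4
    rw [h3, hAc] at hlaw
    linarith
  rw [hZc]
  push_cast
  have hA0 : (0 : ℝ) ≤ A.card := by positivity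
  have hSA : (0 : ℝ) ≤ (Sl T1 T2).card * A.card := by positivity
  rcases le_or_gt (0.2097 : ℝ) ε with h | h
  · have h3 : (0.2097 - 3 * ε) * (((Sl T1 T2).card : ℝ) * A.card) ≤ 0 :=
      mul_nonpos_of_nonpos_of_nonneg (by linarith) hSA
    exact h3.trans (by positivity)
  · refine le_trans ?_ hsum
    have h3 : ((A.card : ℝ) - ε * A.card) * ((0.2097 - ε) * (Sl T1 T2).card) ≤
        ((A.filter fun f => Gd ε T1 T2 f).card : ℝ) * ((0.2097 - ε) * (Sl T1 T2).card) :=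
      mul_le_mul_of_nonneg_right hcard (mul_nonneg (by linarith) hS0'.le)
    refine le_trans ?_ h3
    have h4 : (0.2097 - 3 * ε) ≤ (1 - ε) * (0.2097 - ε) := by nlinarith
    calc (0.2097 - 3 * ε) * (((Sl T1 T2).card : ℝ) * A.card)
        ≤ ((1 - ε) * (0.2097 - ε)) * (((Sl T1 T2).card : ℝ) * A.card) :=
          mul_le_mul_of_nonneg_right h4 hSA
      _ = ((A.card : ℝ) - ε * A.card) * ((0.2097 - ε) * (Sl T1 T2).card) := by ring

end Pool.RKO
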