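import Pool.Agent.H59.R1.Defs
import Pool.Agent.H75.PRL.S1
import Pool.Agent.H75.PRL.S2
import Pool.Agent.H40.PRL.TYQ
import Pool.Agent.H54.PRL.LT2
import Pool.Agent.H17.AVS.LAC
import Pool.Agent.H77.RZ.USE

/-!
# The Poonen-Rains law: local solubility at the simple divisors of the twist
-/

set_option autoImplicit false

namespace Pool.RKO

open Polynomial Matrix Pool.AVR Pool.AVS Pool.RZ Pool.PRL

namespace LT3

open Pool.PRL.LT2

section Abstract

variable {L : Type} [Field L] {O : ValuationSubring L} {π : L}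

/-- A smooth point. -/
theorem smooth_neg (hL : Loc L O π) (G B : Matrix (Fin 3) (Fin 3) L) (z : Fin 3 → L) (w : L)
    (hGs : Gᵀ = G) (hG : GI (O : Set L) G) (hz : ∀ i, z i ∈ O)
    (hzp : ∃ i, z i / π ∉ O) (hw : w ∈ O) (hiso : bil G z z / π ∈ O)
    (hB : ∀ i j, (B i j + w ^ 2 * ((G *ᵥ z) i * (G *ᵥ z) j)) / π ∈ O) :
    ∃ v : Fin 3 → L, (∀ i, v i ∈ O) ∧ (∃ i, v i / π ∉ O) ∧ bil G v v / π ∈ O ∧
      (w ^ 2 + bil B v v) / π ∈ O := by
  obtain ⟨h2, h2'⟩ := hL.two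
  -- a coordinate of `G z` is a unit
  have hGz : ∀ i, (G *ᵥ z) i ∈ O := MI_vec hG.1 hz
  obtain ⟨k, hk⟩ : ∃ k, (G *ᵥ z) k / π ∉ O := by
    by_contra hcon
    push Not at hcon
    obtain ⟨i, hi⟩ := hzp
    apply hi
    have h1 : G⁻¹ *ᵥ (G *ᵥ z) = z := by
      rw [Matrix.mulVec_mulVec, Matrix.nonsing_inv_mul _ (isUnit_iff_ne_zero.2 hG.2.1),
        Matrix.one_mulVec]
    have h3 := J_vec (LAC.GI_inv O hG).1 hcon i
    rwa [h1] at h3
  obtain ⟨hk0, hki⟩ := J_inv hL (hGz k) hk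
  set γ := ((G *ᵥ z) k)⁻¹ with hγ
  -- the vector `v0`
  set v0 : Fin 3 → L := Pi.single k γ with hv0
  have hv0O : ∀ i, v0 i ∈ O := by
    intro i
    rw [hv0]
    by_cases h : i = k
    · subst h
      rw [Pi.single_eq_same]
      exact hki
    · rw [Pi.single_eq_of_ne h]
      exact O.zero_mem
  have hd0 : (G *ᵥ z) ⬝ᵥ v0 = 1 := by
    rw [hv0, dotProduct_single, hγ, mul_inv_cancel₀ hk0]
  have hd1 : v0 ⬝ᵥ (G *ᵥ z) = 1 := by rw [dotProduct_comm, hd0]
  have hd2 : z ⬝ᵥ (G *ᵥ v0) = 1 := by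
    rw [Matrix.dotProduct_mulVec, ← Matrix.mulVec_transpose, hGs]
    exact hd0
  set β := bil G v0 v0 with hβ
  have hβO : β ∈ O := by
    rw [hβ, bil, dotProduct]
    exact O.toSubring.sum_mem fun j _ => O.mul_mem _ _ (hv0O j) (MI_vec hG.1 hv0O j)
  set v : Fin 3 → L := v0 - (β / 2) • z with hv
  have hβ2 : β / 2 ∈ O := by
    rw [div_eq_mul_inv]
    exact O.mul_mem _ _ hβO h2'
  have hvO : ∀ i, v i ∈ O := by
    intro i
    rw [hv, Pi.sub_apply, Pi.smul_apply, smul_eq_mul]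
    exact O.sub_mem (hv0O i) (O.mul_mem _ _ hβ2 (hz i))
  have hiso' : (z ⬝ᵥ (G *ᵥ z)) / π ∈ O := hiso
  have hzz : z ⬝ᵥ (G *ᵥ z) = bil G z z := rfl
  have e1 : bil G v v = (β / 2) ^ 2 * bil G z z := by
    rw [bil, hv, Matrix.mulVec_sub, Matrix.mulVec_smul, sub_dotProduct, dotProduct_sub,
      dotProduct_sub, smul_dotProduct, smul_dotProduct, dotProduct_smul, dotProduct_smul,
      hd1, hd2, hzz]
    have : v0 ⬝ᵥ (G *ᵥ v0) = β := rfl
    rw [this]
    simp only [smul_eq_mul]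
    field_simp
    ring
  have e2 : (G *ᵥ z) ⬝ᵥ v = 1 - β / 2 * bil G z z := by
    rw [hv, dotProduct_sub, dotProduct_smul, hd0, dotProduct_comm, hzz, smul_eq_mul]
  have hB2O : (β / 2) ^ 2 ∈ O := pow_mem hβ2 2
  have hvp : ∃ i, v i / π ∉ O := by
    by_contra hcon
    push Not at hcon
    apply J_one hL
    have h1 : ((G *ᵥ z) ⬝ᵥ v) / π ∈ O := by
      rw [dotProduct]
      exact J_sum _ _ fun j _ => J_mul (hGz j) (hcon j)
    rw [e2] at h1
    have h3 := J_add h1 (J_mul hβ2 hiso)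
    rwa [sub_add_cancel] at h3
  have e3 : bil B v v + w ^ 2 * ((G *ᵥ z) ⬝ᵥ v) ^ 2 =
      ∑ i, ∑ j, v i * v j * (B i j + w ^ 2 * ((G *ᵥ z) i * (G *ᵥ z) j)) := by
    rw [bil]
    simp only [dotProduct, Matrix.mulVec, Fin.sum_univ_three]
    ring
  have h3 : (bil B v v + w ^ 2 * ((G *ᵥ z) ⬝ᵥ v) ^ 2) / π ∈ O := by
    rw [e3]
    refine J_sum _ _ fun i _ => J_sum _ _ fun j _ => J_mul ?_ (hB i j)
    exact O.mul_mem _ _ (hvO i) (hvO j)
  refine ⟨v, hvO, hvp, ?_, ?_⟩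
  · rw [e1]
    exact J_mul hB2O hiso
  · have hs : bil G z z ∈ O := by
      rw [bil, dotProduct]
      exact O.toSubring.sum_mem fun j _ => O.mul_mem _ _ (hz j) (hGz j)
    have e4 : w ^ 2 + bil B v v = (bil B v v + w ^ 2 * ((G *ᵥ z) ⬝ᵥ v) ^ 2) +
        (w ^ 2 * (β / 2) * (2 - β / 2 * bil G z z)) * bil G z z := by
      rw [e2]
      ring
    rw [e4]
    refine J_add h3 (J_mul ?_ hiso)
    refine O.mul_mem _ _ (O.mul_mem _ _ (pow_mem hw 2) hβ2) (O.sub_mem ?_ (O.mul_mem _ _ hβ2 hs))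
    have : (2 : L) = 1 + 1 := by norm_num
    rw [this]
    exact O.add_mem _ _ O.one_mem O.one_mem

/-- The smooth point in the normal form. -/
theorem smooth_neg' (hL : Loc L O π) (G B : Matrix (Fin 3) (Fin 3) L) (z : Fin 3 → L) (w : L)
    (hGs : Gᵀ = G) (hG : GI (O : Set L) G) (hz : ∀ i, z i ∈ O)
    (hzp : ∃ i, z i / π ∉ O) (hw : w ∈ O) (hw' : w / π ∉ O) (hiso : bil G z z / π ∈ O)
    (hB : ∀ i j, (B i j + w ^ 2 * ((G *ᵥ z) i * (G *ᵥ z) j)) / π ∈ O)
    (κ : Matrix (Fin 3) (Fin 3) L) (hκ : GI (O : Set L) κ) (hκA : κᵀ * G * κ = AA L) :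
    ∃ (z' : Fin 3 → L) (w' : L), Smo (O : Set L) π (AA L) (κᵀ * B * κ) z' w' := by
  obtain ⟨v, h1, h2, h3, h4⟩ := smooth_neg hL G B z w hGs hG hz hzp hw hiso hB
  have hκκ : κ *ᵥ (κ⁻¹ *ᵥ v) = v := by
    rw [Matrix.mulVec_mulVec, Matrix.mul_nonsing_inv _ (isUnit_iff_ne_zero.2 hκ.2.1),
      Matrix.one_mulVec]
  have key : ∀ M : Matrix (Fin 3) (Fin 3) L,
      bil (κᵀ * M * κ) (κ⁻¹ *ᵥ v) (κ⁻¹ *ᵥ v) = bil M v v := by
    intro M
    rw [bil, ← Matrix.mulVec_mulVec, hκκ, ← Matrix.mulVec_mulVec, Matrix.dotProduct_mulVec,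
      Matrix.vecMul_transpose, hκκ, bil]
  have hκi := LAC.GI_inv O hκ
  refine ⟨κ⁻¹ *ᵥ v, w, fun i => MI_vec hκi.1 h1 i, hw, ?_, ?_, ?_, fun h => hw' h.1⟩
  · by_contra hcon
    push Not at hcon
    obtain ⟨i, hi⟩ := h2
    apply hi
    have := J_vec hκ.1 hcon i
    rwa [hκκ] at this
  · rw [← hκA, key]
    exact h3
  · rw [key]
    exact h4

end Abstract

end LT3

open Pool.PRL.LT2 LT3 in
/-- At a simple divisor of `d` the classes of type `(0, 0)` or `(1, 0)` are classes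
of points of the twist. -/
theorem lt3_thm (hTYP : TYPStmt) (hSQL : SQLStmt) (hTRS : TRSStmt) (hLBB : LBBStmt)
    (hLSM : LSMStmt) (hNFO : NFOStmt) (hSCD : SCDStmt) (hCHH : CHHStmt) (hNGH : NGHStmt) :
    LT3Stmt := by
  intro F _ _ h2 P hPm hP f d hsep hPd hPd2 L _ O ι hcomp h hco hN hty
  have hd0 : d ≠ 0 := by
    rintro rfl
    exact hPd2 (dvd_zero _)
  have hloc := hcomp.loc
  have hneg : rf (-d) = -rf d := map_neg _ _
  obtain ⟨hinvs, hS, -⟩ := hSCD F d f hd0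
  rcases hty with hty | hty
  · -- the trivial class
    obtain ⟨s0, hs0⟩ := hSQL F h2 P hPm hP f L O ι hcomp h hco (hTYP F h2 P f hPm hP h hN hty)
    obtain ⟨-, -, hl1, -⟩ := hS 1
    have h1 : scd d (1 : (RatFunc F)[X]) = 1 := by
      unfold scd
      exact one_comp
    have h3 := (hl1 L ι).1 (by
      rw [h1, Polynomial.map_one]
      exact hTRS L O (ι (rf P)) hloc _ _ _)
    obtain ⟨x, y, hxy, hy, s, hs⟩ := h3
    -- the inverse of `s0`
    have hcoL : IsCoprime (h.map ι) ((cubK f).map ι) := hco.map (mapRingHom ι)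
    obtain ⟨q, hq⟩ := hs0
    have hs0c : IsCoprime s0 ((cubK f).map ι) := by
      have h4 : IsCoprime (s0 ^ 2 + (cubK f).map ι * q) ((cubK f).map ι) := by
        have : s0 ^ 2 + (cubK f).map ι * q = h.map ι := by linear_combination -hq
        rw [this]
        exact hcoL
      have h5 : IsCoprime (s0 ^ 2) ((cubK f).map ι) := IsCoprime.of_add_mul_left_left h4
      exact (IsCoprime.pow_left_iff (by norm_num)).1 h5
    obtain ⟨u, v, huv⟩ := hs0c
    refine ⟨x, y, hxy, hy, s * u, ?_⟩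
    obtain ⟨q', hq'⟩ := hs
    rw [Polynomial.map_one, one_mul] at hq'
    -- `h (s u)² = s0² s² u² = s²`
    refine ⟨q' - q * s ^ 2 * u ^ 2 + s ^ 2 * v * (1 + u * s0), ?_⟩
    linear_combination hq' - s ^ 2 * u ^ 2 * hq - s ^ 2 * (1 + u * s0) * huv
  · -- the class of type `(1, 0)`
    obtain ⟨g, hg, hG, hB, z, μ, w, hz, hzp, hμ, hw, hw', hiso, heig, hBl⟩ :=
      hLBB F h2 P f hPm hP h hco hN hty (-d) (by rwa [dvd_neg]) (by rwa [dvd_neg])
    obtain ⟨-, -, hl1, hrep⟩ := hS h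
    refine (hl1 L ι).1 ?_
    have hR := (hrep (gᵀ * g0 f h * g) (gᵀ * g1 f h * g)).2
      (hCHH (RatFunc F) _ _ _ h _ _ g (hNGH (RatFunc F) (kf f).1 (kf f).2.1 (kf f).2.2 h).1)
    have hRL := RepH_map ι hR
    set GK := gᵀ * g0 f h * g with hGK
    set BK := rf d • (gᵀ * g1 f h * g) with hBK
    obtain ⟨ε, hε, hdet⟩ := TYQ.det_form f h hco hN
    have hGs : GKᵀ = GK := by
      rw [hGK, Matrix.transpose_mul, Matrix.transpose_mul, Matrix.transpose_transpose,
        TYQ.gr0_symm, Matrix.mul_assoc]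
    have hGLs : (GK.map ι)ᵀ = GK.map ι := by
      rw [← Matrix.transpose_map, hGs]
    have hdetK : GK.det = -(g.det * ε) ^ 2 := by
      rw [hGK, Matrix.det_mul, Matrix.det_mul, Matrix.det_transpose, hdet]
      ring
    have hdetL : (GK.map ι).det = -(ι (g.det * ε)) ^ 2 := by
      have h4 : (GK.map ι).det = ι GK.det := by
        rw [RingHom.map_det]
        rfl
      rw [h4, hdetK, map_neg, map_pow]
    have mem : ∀ x : RatFunc F, x ∈ IP P → ι x ∈ O := fun x hx => (hcomp.mem x).2 hx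
    have hGL : GI (O : Set L) (GK.map ι) := by
      refine ⟨fun i j => mem _ (hG.1 i j), ?_⟩
      have h4 : (GK.map ι).det = ι GK.det := by
        rw [RingHom.map_det]
        rfl
      rw [h4]
      refine ⟨(_root_.map_ne_zero ι).2 hG.2.1, mem _ hG.2.2.1, ?_⟩
      rw [← map_inv₀]
      exact mem _ hG.2.2.2
    -- the root of the determinant is a unit
    have hεU : UI (O : Set L) (ι (g.det * ε)) := by
      have hne : ι (g.det * ε) ≠ 0 := (_root_.map_ne_zero ι).2 (mul_ne_zero hg hε)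
      obtain ⟨u1, u2, u3⟩ := hGL.2
      rw [hdetL] at u1 u2 u3
      have u2' : ι (g.det * ε) ^ 2 ∈ O := by
        have := O.neg_mem _ u2
        rwa [neg_neg] at this
      have u3' : (ι (g.det * ε))⁻¹ ^ 2 ∈ O := by
        have := O.neg_mem _ u3
        rwa [inv_neg, neg_neg, ← inv_pow] at this
      have hsq : ∀ t : L, t ^ 2 ∈ O → t ∈ O := by
        intro t ht
        rcases O.mem_or_inv_mem t with h | h
        · exact h
        · by_cases ht0 : t = 0
          · rw [ht0]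
            exact O.zero_mem
          · have h5 := O.mul_mem _ _ ht h
            rwa [pow_two, mul_assoc, mul_inv_cancel₀ ht0, mul_one] at h5
      exact ⟨hne, hsq _ u2', hsq _ u3'⟩
    obtain ⟨κ, hκ, hκA⟩ := hNFO L O (ι (rf P)) hloc (GK.map ι) (ι (g.det * ε)) hGLs hGL.1 hεU
      hdetL
    have hP0 : rf P ≠ 0 := (map_ne_zero_iff _ (RatFunc.algebraMap_injective F)).2 hP.ne_zero
    have hPP : rf P ∈ IP P := USE.IP_rf hP P
    obtain ⟨z', w', hsm⟩ := smooth_neg' hloc (GK.map ι) (BK.map ι) (fun i => ι (z i)) (ι w)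
      hGLs hGL (fun i => mem _ (hz i)) (by
        obtain ⟨i, hi⟩ := hzp
        refine ⟨i, fun h => hi ?_⟩
        rw [← map_div₀] at h
        exact (hcomp.mem _).1 h) (mem _ hw) (fun h => hw' (by
        rw [← map_div₀] at h
        exact (hcomp.mem _).1 h)) (by
        rw [← bil_map]
        have h6 := mem _ hiso
        have e6 : ι (bil GK z z) / ι (rf P) = ι (rf P) * ι (bil GK z z / rf P ^ 2) := by
          rw [map_div₀, map_pow]
          have : ι (rf P) ≠ 0 := (_root_.map_ne_zero ι).2 hP0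
          field_simp
        rw [e6]
        exact O.mul_mem _ _ (mem _ hPP) h6) (by
        intro i j
        have h6 := mem _ (hBl i j)
        rw [map_div₀, map_sub, map_mul, map_mul, map_pow, mulVec_map, mulVec_map] at h6
        have h7 := O.neg_mem _ h6
        have e7 : (ι (BK i j) + ι w ^ 2 * (((GK.map ι) *ᵥ fun i => ι (z i)) i *
            ((GK.map ι) *ᵥ fun i => ι (z i)) j)) / ι (rf P) =
            -((ι ((rf (-d) • (gᵀ * g1 f h * g)) i j) - ι w ^ 2 *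
              (((GK.map ι) *ᵥ fun i => ι (z i)) i * ((GK.map ι) *ᵥ fun i => ι (z i)) j)) /
                ι (rf P)) := by
          rw [hBK, Matrix.smul_apply, Matrix.smul_apply, hneg, neg_smul, map_neg]
          ring
        rw [Matrix.map_apply, e7]
        exact h7) κ hκ hκA
    have hsepL : (cub (ι (kf (tw d f)).1) (ι (kf (tw d f)).2.1)
        (ι (kf (tw d f)).2.2)).Separable := by
      have h7 := (tw_sep hd0 hsep).map (f := ι)
      have e7 : (cubK (tw d f)).map ι = cub (ι (kf (tw d f)).1) (ι (kf (tw d f)).2.1)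
        (ι (kf (tw d f)).2.2) := LAC.cub_map ι _ _ _
      rwa [e7] at h7
    refine hLSM L O (ι (rf P)) hloc 1 _ _ _ (ι (g.det * ε)) ((scd d h).map ι) (GK.map ι)
      (BK.map ι) one_ne_zero hsepL hRL hGL hdetL ?_ ⟨κ, hκ, hκA, z', w', ?_⟩
    · rw [one_pow, inv_one, one_smul]
      intro i j
      have h6 := O.neg_mem _ (mem _ (hB i j))
      rw [Matrix.smul_apply, hneg, neg_smul, map_neg, neg_neg] at h6
      exact h6
    · rw [one_pow, inv_one, one_smul]
      exact hsm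

end Pool.RKO
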