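import Pool.Agent.H59.R1.Defs
import Pool.Agent.H75.PRL.FIP

/-!
# LW1: almost all the curves of the family are good
-/

set_option autoImplicit false

namespace Pool.RKO

open Polynomial Matrix Pool.AVR Pool.AVS Pool.RZ Pool.PRL

open Classical in
theorem lawF_mono {F : Type} [Field F] {ε ε' : ℝ} (h : ε' ≤ ε) {T1 T2 : Finset F[X]}
    {f : F[X] × F[X] × F[X]} (hl : LawF ε' T1 T2 f) : LawF ε T1 T2 f :=
  ⟨hl.1, hl.2.1, fun R => (hl.2.2 R).trans h⟩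

open Classical in
open FIP in
theorem lw1 (hGDF : GDFStmt) (hLAW : LAWStmt) (hCX1 : CX1Stmt) (hSWA : SWAStmt)
    (hTW1 : TW1Stmt) : LW1Stmt := by
  intro F _ _ h2 ε hε
  obtain ⟨c, hc, hcT⟩ := hCX1 F h2
  set ε' : ℝ := min ε (ε * c / 2) with hε'
  have hε'0 : 0 < ε' := lt_min hε (by positivity)
  have h1 : ε' ≤ ε := min_le_left _ _
  have h3 : ε' ≤ ε * c / 2 := min_le_right _ _
  obtain ⟨k1, hk1⟩ := hGDF F h2 ε' 1 hε'0 one_pos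
  obtain ⟨k2, hk2⟩ := hLAW F h2 ε' hε'0
  refine ⟨max k1 k2, ?_⟩
  intro T1 T2 j hd hE hT2 hT1 hj
  obtain ⟨N1, hN1⟩ := hk1 T1 T2 j hd hE hT2 hT1 ((le_max_left _ _).trans hj)
  obtain ⟨N2, hN2⟩ := hk2 T1 T2 j hd hE hT2 hT1 ((le_max_right _ _).trans hj)
  obtain ⟨N3, hN3⟩ := hcT (T1 ∪ T2) hE
  refine ⟨N1 + N2 + N3 + 1, fun n hn => ?_⟩
  obtain ⟨hfin, hb1⟩ := hN1 n (by omega)
  obtain ⟨-, hb2⟩ := hN2 n (by omega)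
  obtain ⟨-, hb3⟩ := hN3 n (by omega)
  obtain ⟨-, -, hFm, -⟩ := hTW1 F h2 n (T1 ∪ T2) hE
  have hfin' : (FmT F n (insert X (T1 ∪ T2))).Finite := hfin.subset fun f hf => ((hFm f).1 hf).1
  refine ⟨hfin', ?_⟩
  have hsub : {f | f ∈ FmT F n (insert X (T1 ∪ T2)) ∧ ¬ Gd ε T1 T2 f} ⊆
      {f | f ∈ FmT F n (T1 ∪ T2) ∧ ¬ Good 1 T1 T2 j f} ∪
        {f | f ∈ FmT F n (T1 ∪ T2) ∧ ¬ LawF ε' T1 T2 f} := by
    rintro f ⟨hf, hG⟩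
    have hfT := ((hFm f).1 hf).1
    by_cases h4 : Good 1 T1 T2 j f
    · refine Or.inr ⟨hfT, fun h5 => hG ⟨lawF_mono h1 h5, fun S hS => ?_⟩⟩
      exact hSWA F h2 n (T1 ∪ T2) (by omega) hE f hf h4.1 S (Sl_sub hS)
    · exact Or.inl ⟨hfT, h4⟩
  have h5 : ({f | f ∈ FmT F n (insert X (T1 ∪ T2)) ∧ ¬ Gd ε T1 T2 f}.ncard : ℝ) ≤
      ({f | f ∈ FmT F n (T1 ∪ T2) ∧ ¬ Good 1 T1 T2 j f}.ncard : ℝ) +
        ({f | f ∈ FmT F n (T1 ∪ T2) ∧ ¬ LawF ε' T1 T2 f}.ncard : ℝ) := by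
    have h6 := (Set.ncard_le_ncard hsub ((hfin.subset fun f hf => hf.1).union
      (hfin.subset fun f hf => hf.1))).trans (Set.ncard_union_le _ _)
    exact_mod_cast h6
  have hF0 : (0 : ℝ) ≤ ((FmT F n (T1 ∪ T2)).ncard : ℝ) := by positivity
  calc ({f | f ∈ FmT F n (insert X (T1 ∪ T2)) ∧ ¬ Gd ε T1 T2 f}.ncard : ℝ)
      ≤ 2 * ε' * (FmT F n (T1 ∪ T2)).ncard := by linarith
    _ ≤ ε * (c * (FmT F n (T1 ∪ T2)).ncard) := by nlinarith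
    _ ≤ ε * (FmT F n (insert X (T1 ∪ T2))).ncard := mul_le_mul_of_nonneg_left hb3 hε.le

end Pool.RKO
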