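import Pool.Agent.H59.R1.Defs
import Pool.Agent.H32.PRL.MLG
import Pool.Agent.H75.PRL.S3
import Pool.Agent.H75.PRL.S1
import Pool.Agent.H75.PRL.S2
import Pool.Agent.H32.PRL.FLP

/-!
# Row ML1: the group of the types of the classes, and the Selmer groups of the twists
-/

set_option autoImplicit false

namespace Pool.RKO

open Polynomial Matrix Pool.AVR Pool.AVS Pool.RZ Pool.PRL

open Pool.PRL.MLGaux

open Classical in
/-- ML1. -/
theorem ml1 (hQR1 : QR1Stmt) (hCGB : CGBStmt) (hSE1 : SE1Stmt) (hTYM : TYMStmt)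
    (hUPM : UPMStmt) : ML1Stmt := by
  intro F _ _ h2 n T hn hT f hf hPat
  have hQ := hQR1 F h2 n T hn hT f hf
  have hPm : ∀ P : {P : F[X] // P ∈ T}, (P : F[X]).Monic := fun P => (hT P P.2).1
  have hPi : ∀ P : {P : F[X] // P ∈ T}, Irreducible (P : F[X]) := fun P => (hT P P.2).2
  -- uniqueness of types
  have huniq : ∀ ξ ∈ Rc f T, ∀ P : {P : F[X] // P ∈ T}, ∀ x y : Ty, TyC f P x ξ → TyC f P y ξ →
      x = y := by
    intro ξ hξ P x y hx hy
    exact ((hQ ξ hξ).1 P P.2).unique hx hy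
  -- the type function
  have hex : ∀ ξ : (Alg f)ˣ ⧸ Sq f, ∃ m : {P : F[X] // P ∈ T} → Ty, ξ ∈ Rc f T →
      ∀ P : {P : F[X] // P ∈ T}, TyC f P (m P) ξ := by
    intro ξ
    by_cases hξ : ξ ∈ Rc f T
    · have h3 : ∀ P : {P : F[X] // P ∈ T}, ∃ x : Ty, TyC f P x ξ := fun P =>
        ((hQ ξ hξ).1 P P.2).exists
      obtain ⟨m, hm⟩ := Classical.skolem.mp h3
      exact ⟨m, fun _ => hm⟩
    · exact ⟨0, fun h => absurd h hξ⟩
  obtain ⟨θ, hθ⟩ : ∃ θ : ((Alg f)ˣ ⧸ Sq f) → ({P : F[X] // P ∈ T} → Ty), ∀ ξ, ξ ∈ Rc f T →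
      ∀ P : {P : F[X] // P ∈ T}, TyC f P (θ ξ P) ξ := Classical.skolem.mp hex
  have hθu : ∀ ξ ∈ Rc f T, ∀ m : {P : F[X] // P ∈ T} → Ty,
      (∀ P : {P : F[X] // P ∈ T}, TyC f P (m P) ξ) → θ ξ = m := by
    intro ξ hξ m hm
    funext P
    exact huniq ξ hξ P _ _ (hθ ξ hξ P) (hm P)
  have hone : θ 1 = 0 := by
    have h1 := rc_one (F := F) hUPM (f := f) (T := T)
    refine hθu 1 h1 0 fun P => ?_
    have h3 := hθ 1 h1 P
    have h4 := tyC_mul hTYM (hPm P) (hPi P) h3 h3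
    rw [add_ty] at h4
    have e := sq_eq_one f 1
    rw [e] at h4
    exact h4
  have hmul : ∀ ξ ∈ Rc f T, ∀ ξ' ∈ Rc f T, θ (ξ * ξ') = θ ξ + θ ξ' := by
    intro ξ hξ ξ' hξ'
    exact hθu _ (rc_mul hUPM hξ hξ') _ fun P =>
      tyC_mul hTYM (hPm P) (hPi P) (hθ ξ hξ P) (hθ ξ' hξ' P)
  have hinj : Set.InjOn θ (Rc f T) := by
    intro ξ hξ ξ' hξ' heq
    have h3 : θ (ξ * ξ') = 0 := by
      rw [hmul ξ hξ ξ' hξ', heq]
      funext P; exact add_ty _
    have h4 : ξ * ξ' = 1 := by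
      by_contra hne
      have : ξ * ξ' ∈ PatR f T (fun _ => 0) := by
        refine ⟨rc_mul hUPM hξ hξ', hne, fun P hP => ?_⟩
        have := hθ _ (rc_mul hUPM hξ hξ') ⟨P, hP⟩
        rw [h3] at this
        exact this
      rw [hPat] at this
      exact this
    rw [← inv_eq_self f ξ']
    exact eq_inv_of_mul_eq_one_left h4
  -- the group
  let M : AddSubgroup ({P : F[X] // P ∈ T} → Ty) :=
    { carrier := θ '' Rc f T
      zero_mem' := ⟨1, rc_one hUPM, hone⟩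
      add_mem' := by
        rintro _ _ ⟨ξ, hξ, rfl⟩ ⟨ξ', hξ', rfl⟩
        exact ⟨ξ * ξ', rc_mul hUPM hξ hξ', hmul ξ hξ ξ' hξ'⟩
      neg_mem' := by
        rintro _ ⟨ξ, hξ, rfl⟩
        exact ⟨ξ, hξ, by funext P; exact (neg_ty _).symm⟩ }
  have hMmem : ∀ m, m ∈ M ↔ m ∈ θ '' Rc f T := fun m => Iff.rfl
  have hsing : ∀ m ∈ M, qf m = 0 := by
    rintro _ ⟨ξ, hξ, rfl⟩
    have hev := (hQ ξ hξ).2
    have h3 : qf (θ ξ) = ((Finset.univ.filter fun P => θ ξ P = (1, 1)).card : ZMod 2) := by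
      rw [qf, Finset.card_filter]
      push_cast
      refine Finset.sum_congr rfl fun P _ => ?_
      have : ∀ x : Ty, x.1 * x.2 = if x = (1, 1) then 1 else 0 := by decide
      rw [this]
    have h4 : (Finset.univ.filter fun P => θ ξ P = (1, 1)).card =
        {P | P ∈ T ∧ TyC f P (1, 1) ξ}.ncard := by
      have e : {P | P ∈ T ∧ TyC f P (1, 1) ξ} = ((Finset.univ.filter fun P => θ ξ P = (1, 1)).map
          (Function.Embedding.subtype _) : Finset F[X]) := by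
        ext P
        simp only [Set.mem_ofPred_eq, Finset.coe_map, Set.mem_image, Finset.mem_coe,
          Finset.mem_filter, Finset.mem_univ, true_and, Function.Embedding.subtype_apply]
        constructor
        · rintro ⟨hP, ht⟩
          exact ⟨⟨P, hP⟩, huniq ξ hξ ⟨P, hP⟩ _ _ (hθ ξ hξ ⟨P, hP⟩) ht, rfl⟩
        · rintro ⟨Q, hQ1, rfl⟩
          refine ⟨Q.2, ?_⟩
          have := hθ ξ hξ Q
          rwa [hQ1] at this
      rw [e, Set.ncard_coe_finset, Finset.card_map]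
    rw [h3, h4]
    obtain ⟨r, hr⟩ := hev
    rw [hr]; push_cast
    exact CharTwo.add_self_eq_zero _
  have hfinRc : (Rc f T).Finite := by
    refine Set.Finite.of_finite_image (f := θ) (Set.toFinite _) hinj
  have hcard : Nat.card M = (Rc f T).ncard := by
    have h3 : Nat.card M = (θ '' Rc f T).ncard := rfl
    rw [h3, hinj.ncard_image]
  have hle := card_le_of_sing M hsing
  have hge := hCGB F h2 n T f hn hT hf hfinRc
  have hkc : Fintype.card {P : F[X] // P ∈ T} = T.card := Fintype.card_coe T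
  have hMcard : Nat.card M = 2 ^ T.card := by
    rw [hkc] at hle
    rw [← hcard] at hge
    exact le_antisymm hle hge
  refine ⟨M, hsing, hMcard, ?_, ?_⟩
  · rintro _ ⟨ξ, hξ, rfl⟩ hne
    refine ⟨ξ, hξ, ?_, fun P hP => ?_⟩
    · rintro rfl
      exact hne hone
    · have e : ex T (θ ξ) P = θ ξ ⟨P, hP⟩ := by rw [ex, dif_pos hP]
      rw [e]
      exact hθ ξ hξ ⟨P, hP⟩
  · intro S hS
    obtain ⟨e, _, he⟩ := hSE1 F h2 n T f hn hT hf S hS
    set A : Set ((Alg f)ˣ ⧸ Sq f) := {ξ | ξ ∈ Rc f T ∧ ∀ P ∈ T, ∃ x : Ty, TyC f P x ξ ∧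
      (P ∈ S → x.2 = 0) ∧ (P ∉ S → x.1 = 0)} with hA
    have hAR : A ⊆ Rc f T := fun ξ hξ => hξ.1
    have hSelA : Sel (tw (pr S) f) = e '' A := by
      ext ζ
      constructor
      · intro hζ
        refine ⟨e.symm ζ, ?_, e.apply_symm_apply ζ⟩
        have := (he (e.symm ζ)).mp (by rw [e.apply_symm_apply]; exact hζ)
        exact this
      · rintro ⟨ξ, hξ, rfl⟩
        exact (he ξ).mpr hξ
    have hAfin : A.Finite := hfinRc.subset hAR
    have himg : {m | m ∈ M ∧ m ∈ LS (sb T S)} = θ '' A := by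
      ext m
      constructor
      · rintro ⟨⟨ξ, hξ, rfl⟩, hLS⟩
        refine ⟨ξ, ⟨hξ, fun P hP => ⟨θ ξ ⟨P, hP⟩, hθ ξ hξ ⟨P, hP⟩, ?_, ?_⟩⟩, rfl⟩
        · intro hPS
          have := hLS ⟨P, hP⟩
          rw [if_pos (by rw [sb, Finset.mem_filter]; exact ⟨Finset.mem_univ _, hPS⟩)] at this
          exact this
        · intro hPS
          have := hLS ⟨P, hP⟩
          rw [if_neg (by rw [sb, Finset.mem_filter]; exact fun h => hPS h.2)] at this
          exact this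
      · rintro ⟨ξ, hξ, rfl⟩
        refine ⟨⟨ξ, hξ.1, rfl⟩, fun P => ?_⟩
        obtain ⟨x, hx, hx1, hx2⟩ := hξ.2 P P.2
        have e : θ ξ P = x := huniq ξ hξ.1 P _ _ (hθ ξ hξ.1 P) hx
        by_cases hPS : (P : F[X]) ∈ S
        · rw [if_pos (by rw [sb, Finset.mem_filter]; exact ⟨Finset.mem_univ _, hPS⟩), e]
          exact hx1 hPS
        · rw [if_neg (by rw [sb, Finset.mem_filter]; exact fun h => hPS h.2), e]
          exact hx2 hPS
    refine ⟨?_, ?_⟩
    · rw [hSelA]; exact hAfin.image _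
    · rw [hSelA, Set.ncard_image_of_injective _ e.injective, himg,
        (hinj.mono hAR).ncard_image]

end Pool.RKO
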