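import Pool.Agent.H59.R1.Defs
import Pool.Agent.H64.PRL.SEL
import Pool.Agent.H75.PRL.S2
import Pool.Agent.H16.AVS.SEH
import Pool.Agent.H16.AVS.CLE
import Pool.Agent.H53.AVS.CPP
import Pool.Agent.H43.AVS.CPI
import Pool.Agent.H33.AVS.TRS
import Pool.Agent.H25.AVR.DSC
import Pool.Agent.H75.PRL.S1

/-!
# SE1: the 2-Selmer groups of the twists, in terms of types, for primes of any degree
-/

set_option autoImplicit false

namespace Pool.RKO

open Polynomial Matrix Pool.AVR Pool.AVS Pool.RZ Pool.PRL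

open Pool.Agent.H64.PRL in
theorem se1 (hLU1 : LU1Stmt) (hLU2 : LU2Stmt) (hLT1 : LT1Stmt) (hLT3 : LT3Stmt)
    (hLI3 : LI3Stmt) (hSCD : SCDStmt) (hTYM : TYMStmt) : SE1Stmt := by
  have hSEH : SEHStmt := Pool.Agent.H16.AVS.seh_thm Pool.AVS.cpp_thm
    Pool.AVS.cpi_thm Pool.AVS.trs_thm
  have hCLE : CLEStmt := Pool.Agent.H16.AVS.cle_thm
  intro F _ _ h2 n T f hn hT hf S hST
  obtain ⟨⟨hFam, hsq, hdeg⟩, hT12, hNR⟩ := hf
  have hTm : ∀ P ∈ T, P.Monic ∧ Irreducible P := hT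
  have hSm : ∀ P ∈ S, P.Monic ∧ Irreducible P := fun P hP => hTm P (hST hP)
  have hd0 : pr S ≠ 0 := Finset.prod_ne_zero_iff.2 fun P hP => (hSm P hP).1.ne_zero
  have hsq2 : ∀ P : F[X], Irreducible P → ¬ P ^ 2 ∣ disc f.1 f.2.1 f.2.2 := by
    intro P hP hd
    rw [pow_two] at hd
    exact hP.not_isUnit (hsq P hd)
  have h2K : (2 : RatFunc F) ≠ 0 := by
    intro h
    apply h2
    have h3 : algebraMap F (RatFunc F) 2 = algebraMap F (RatFunc F) 0 := by
      rw [map_ofNat, map_zero]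
      exact h
    exact (algebraMap F (RatFunc F)).injective h3
  have hdiscmap : disc (algebraMap F[X] (RatFunc F) f.1) (algebraMap F[X] (RatFunc F) f.2.1)
        (algebraMap F[X] (RatFunc F) f.2.2) = algebraMap F[X] (RatFunc F)
          (disc f.1 f.2.1 f.2.2) := by
    simp only [disc, map_add, map_sub, map_mul, map_pow, map_ofNat]
  have hsep : (cubK f).Separable := by
    rw [cubK, (Pool.AVR.DSC_thm (RatFunc F) h2K _ _ _).1, hdiscmap]
    refine (map_ne_zero_iff _ (RatFunc.algebraMap_injective F)).2 ?_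
    intro h0
    rw [h0] at hsq
    exact not_squarefree_zero hsq
  obtain ⟨hinv, hloc, e, he⟩ := hSCD F (pr S) f hd0
  refine ⟨e, he, fun ξ => ⟨?_, ?_⟩⟩
  · intro hξ
    obtain ⟨h', u', hc', hu', hξ', hN', hP', hI'⟩ := (hSEH F h2 (tw (pr S) f)).1 _ hξ
    set h : (RatFunc F)[X] := h'.comp (C (rf (pr S)) * X) with hh
    have hsc : scd (pr S) h = h' := (hinv h').2
    obtain ⟨hn1, hco, hls, -⟩ := hloc h
    rw [hsc] at hn1 hco
    have hc : IsCoprime h (cubK f) := hco.1 hc'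
    have hN : IsSquare (Algebra.norm (RatFunc F) (AdjoinRoot.mk (cubK f) h)) := hn1 ▸ hN'
    obtain ⟨u, hu⟩ := unit_of_coprime f h hc
    have hξu : (QuotientGroup.mk u : (Alg f)ˣ ⧸ Sq f) = ξ := by
      apply e.injective
      rw [he u u' h hu (by rw [hsc]; exact hu'), hξ']
    have hU : ∀ P : F[X], P.Monic → Irreducible P → P ∉ S → US P f h := by
      intro P hPm hPi hPS
      obtain ⟨L, _, O, ι, hcomp, hsol⟩ := hP' P hPm hPi
      have h5 : LSD ι (pr S) f h := (hls L ι).1 (by rw [hsc]; exact hsol)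
      exact hLU1 F h2 P hPm hPi f (pr S) (hsq2 P hPi)
        (fun hd => hPS (dvd_pr hSm hPm hPi hd)) L O ι hcomp h h5
    refine ⟨⟨u, h, hξu, hu, hN, ?_⟩, ?_⟩
    · intro P hPm hPi hPT
      exact hU P hPm hPi fun hPS => hPT (hST hPS)
    · intro P hPT
      obtain ⟨hPm, hPi⟩ := hTm P hPT
      by_cases hPS : P ∈ S
      · obtain ⟨L, _, O, ι, hcomp, hsol⟩ := hP' P hPm hPi
        have h5 : LSD ι (pr S) f h := (hls L ι).1 (by rw [hsc]; exact hsol)
        obtain ⟨hd1, hd2⟩ := sq_not_dvd_pr hSm hPS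
        rcases hLT1 F h2 P hPm hPi f (pr S) (hT12 P hPT) hd1 hd2 L O ι hcomp h hc hN h5 with h6 | h6
        · exact ⟨(0, 0), ⟨u, h, hξu, hu, h6⟩, fun _ => rfl, fun h => absurd hPS h⟩
        · exact ⟨(1, 0), ⟨u, h, hξu, hu, h6⟩, fun _ => rfl, fun h => absurd hPS h⟩
      · rcases ((hTYM F P f hPm hPi).2.2.1 (hT12 P hPT) h).1 (hU P hPm hPi hPS) with h6 | h6
        · exact ⟨(0, 0), ⟨u, h, hξu, hu, h6⟩, fun h => absurd h hPS, fun _ => rfl⟩
        · exact ⟨(0, 1), ⟨u, h, hξu, hu, h6⟩, fun h => absurd h hPS, fun _ => rfl⟩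
  · rintro ⟨⟨u, h, hξu, hu, hN, hUS⟩, hTy⟩
    have hc : IsCoprime h (cubK f) := Pool.Agent.H16.AVS.isCoprime_of_unit f h u hu
    obtain ⟨hn1, hco, hls, -⟩ := hloc h
    have hc' : IsCoprime (scd (pr S) h) (cubK (tw (pr S) f)) := hco.2 hc
    obtain ⟨u', hu'⟩ := unit_of_coprime (tw (pr S) f) (scd (pr S) h) hc'
    have hN' : IsSquare (Algebra.norm (RatFunc F)
        (AdjoinRoot.mk (cubK (tw (pr S) f)) (scd (pr S) h))) := by rw [hn1]; exact hN
    rw [← hξu, he u u' h hu hu']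
    -- the types of `h`
    have hTy' : ∀ P ∈ T, ∃ x : Ty, Typ P f x h ∧ (P ∈ S → x.2 = 0) ∧ (P ∉ S → x.1 = 0) := by
      intro P hPT
      obtain ⟨hPm, hPi⟩ := hTm P hPT
      obtain ⟨x, ⟨u₁, h₁, hξ₁, hu₁, hx⟩, hx1, hx2⟩ := hTy P hPT
      obtain ⟨s, hs⟩ := (hCLE F f h h₁ u u₁ hu hu₁).1 (hξu.trans hξ₁.symm)
      exact ⟨x, (hTYM F P f hPm hPi).2.1 x h₁ h s hx (coprime_of_dvd f hc hs) hs, hx1, hx2⟩
    have h01 : ∀ y : ZMod 2, y = 0 ∨ y = 1 := by decide
    refine (hSEH F h2 (tw (pr S) f)).2.1 (scd (pr S) h) u' hu' hN' ?_ ?_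
    · intro P hPm hPi L _ O ι hcomp
      refine (hls L ι).2 ?_
      by_cases hPS : P ∈ S
      · obtain ⟨x, hx, hx1, -⟩ := hTy' P (hST hPS)
        obtain ⟨hd1, hd2⟩ := sq_not_dvd_pr hSm hPS
        refine hLT3 F h2 P hPm hPi f (pr S) hsep hd1 hd2 L O ι hcomp h hc hN ?_
        have h7 := hx1 hPS
        obtain ⟨x1, x2⟩ := x
        simp only at h7
        subst h7
        rcases h01 x1 with rfl | rfl
        · exact Or.inl hx
        · exact Or.inr hx
      · have hU : US P f h := by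
          by_cases hPT : P ∈ T
          · obtain ⟨x, hx, -, hx1⟩ := hTy' P hPT
            refine ((hTYM F P f hPm hPi).2.2.1 (hT12 P hPT) h).2 ?_
            have h7 := hx1 hPS
            obtain ⟨x1, x2⟩ := x
            simp only at h7
            subst h7
            rcases h01 x2 with rfl | rfl
            · exact Or.inl hx
            · exact Or.inr hx
          · exact hUS P hPm hPi hPT
        exact hLU2 F h2 P hPm hPi f (pr S) (hsq2 P hPi)
          (fun hd => hPS (dvd_pr hSm hPm hPi hd)) L O ι hcomp h hc hN hU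
    · intro L _ O ι hcomp
      exact (hls L ι).2 (hLI3 F h2 n f hFam hNR (pr S) hd0 L O ι hcomp h hc hN)

end Pool.RKO
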