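import Pool.Agent.H59.R1.Defs
import Pool.Agent.H16.AVS.CLE
import Pool.Agent.H67.PRL.QRR

/-!
# SWA: the switch at `X`
-/

set_option autoImplicit false

namespace Pool.RKO

open Polynomial Matrix Pool.AVR Pool.AVS Pool.RZ Pool.PRL

/-- The type of a class is the type of each representative. -/
theorem typ_of_tyC (hTYM : TYMStmt) {F : Type} [Field F] [Finite F]
    {f : F[X] × F[X] × F[X]} {P : F[X]} (hPm : P.Monic) (hPi : Irreducible P)
    {ξ : (Alg f)ˣ ⧸ Sq f} {u : (Alg f)ˣ} {h : (RatFunc F)[X]}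
    (hξ : (QuotientGroup.mk u : (Alg f)ˣ ⧸ Sq f) = ξ) (hu : (u : Alg f) = AdjoinRoot.mk (cubK f) h)
    {x : Ty} (hx : TyC f P x ξ) : Typ P f x h := by
  have hCLE : CLEStmt := Pool.Agent.H16.AVS.cle_thm
  obtain ⟨u₁, h₁, hξ₁, hu₁, hx⟩ := hx
  have hc : IsCoprime h (cubK f) := Pool.Agent.H16.AVS.isCoprime_of_unit f h u hu
  obtain ⟨s, hs⟩ := (hCLE F f h h₁ u u₁ hu hu₁).1 (hξ.trans hξ₁.symm)
  exact (hTYM F P f hPm hPi).2.1 x h₁ h s hx (QRR.coprime_of_dvd f hc hs) hs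

open Classical in
theorem swa (hML1 : ML1Stmt) (hFLP : FLPStmt) (hTYM : TYMStmt) (hTW1 : TW1Stmt) : SWAStmt := by
  intro F _ _ h2 n T hn hT f hf hPat S hS h1
  obtain ⟨hXT, hMo, -, -⟩ := hTW1 F h2 n T hT
  have hf12 : ∀ P ∈ insert X T, T12P P f := hf.2.1
  have hXm : (X : F[X]) ∈ insert X T := Finset.mem_insert_self _ _
  -- there is no nontrivial class with trivial types
  have hPat' : PatR f (insert X T) (fun _ => 0) = ∅ := by
    rw [Set.eq_empty_iff_forall_notMem]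
    rintro ξ ⟨⟨u, h, hξ, hu, hN, hUS⟩, hne, hty⟩
    have h3 : ξ ∈ PatR f T (fun _ => 0) := by
      refine ⟨⟨u, h, hξ, hu, hN, ?_⟩, hne, fun P hP => hty P (Finset.mem_insert_of_mem hP)⟩
      intro P hPm hPi hPT
      by_cases hPX : P = X
      · subst hPX
        have h4 := typ_of_tyC hTYM hPm hPi hξ hu (hty X hXm)
        exact ((hTYM F X f hPm hPi).2.2.1 (hf12 X hXm) h).2 (Or.inl h4)
      · exact hUS P hPm hPi fun h5 => by
          rcases Finset.mem_insert.1 h5 with h6 | h6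
          · exact hPX h6
          · exact hPT h6
    rw [hPat] at h3
    exact h3
  obtain ⟨M, hM1, hM2, -, hM3⟩ := hML1 F h2 n (insert X T) hn hMo f hf hPat'
  have hS' : S ⊆ insert X T := hS.trans (Finset.subset_insert _ _)
  have hS'' : insert X S ⊆ insert X T := Finset.insert_subset_insert _ hS
  obtain ⟨-, hc⟩ := hM3 S hS'
  obtain ⟨-, hc'⟩ := hM3 (insert X S) hS''
  rw [h1] at hc
  set v : {P : F[X] // P ∈ insert X T} := ⟨X, hXm⟩ with hv
  have hvD : v ∉ sb (insert X T) S := by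
    rw [sb, Finset.mem_filter]
    rintro ⟨-, h3⟩
    exact hXT (hS h3)
  have hsb : sb (insert X T) (insert X S) = insert v (sb (insert X T) S) := by
    ext P
    rw [Finset.mem_insert, sb, sb, Finset.mem_filter, Finset.mem_filter, Finset.mem_insert]
    constructor
    · rintro ⟨-, h3 | h3⟩
      · exact Or.inl (Subtype.ext h3)
      · exact Or.inr ⟨Finset.mem_univ _, h3⟩
    · rintro (h3 | ⟨-, h3⟩)
      · exact ⟨Finset.mem_univ _, Or.inl (congrArg Subtype.val h3)⟩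
      · exact ⟨Finset.mem_univ _, Or.inr h3⟩
  have h0 : (0 : {P : F[X] // P ∈ insert X T} → Ty) ∈
      {m | m ∈ M ∧ m ∈ LS (sb (insert X T) S)} := by
    refine ⟨M.zero_mem, fun P => ?_⟩
    split_ifs <;> rfl
  obtain ⟨m0, hm0⟩ := Set.ncard_eq_one.1 hc.symm
  have hm1 : ∀ m ∈ M, m ∈ LS (sb (insert X T) S) → m v = 0 := by
    intro m hm hm'
    have h3 : m ∈ {m | m ∈ M ∧ m ∈ LS (sb (insert X T) S)} := ⟨hm, hm'⟩
    rw [hm0] at h3 h0
    rw [Set.mem_singleton_iff] at h3 h0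
    rw [h3, ← h0]
    rfl
  have h4 := ((hFLP {P : F[X] // P ∈ insert X T} M hM1 (by rw [hM2, Fintype.card_coe])
    (sb (insert X T) S) v hvD).2 hm1).1
  rw [hc', hsb, h4, ← hc]

end Pool.RKO
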