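import Pool.Agent.H59.R1.SWA
import Pool.Agent.H64.PRL.SEL
import Pool.Agent.H32.PRL.MLG
import Pool.Agent.H53.AVS.CPP

/-!
# SWB: the nontrivial class after the switch
-/

set_option autoImplicit false

namespace Pool.RKO

open Polynomial Matrix Pool.AVR Pool.AVS Pool.RZ Pool.PRL

/-- A class which is trivial over `L` is the class of a point of each twist. -/
theorem lsd_of_sq (hTRS : TRSStmt) (hSCD : SCDStmt) {F : Type} [Field F]
    {f : F[X] × F[X] × F[X]} {d : F[X]} (hd : d ≠ 0) {L : Type} [Field L]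
    {O : ValuationSubring L} {π : L} (hL : Loc L O π) {ι : RatFunc F →+* L} {h : (RatFunc F)[X]}
    (hco : IsCoprime h (cubK f)) {s0 : L[X]} (hs0 : (cubK f).map ι ∣ h.map ι - s0 ^ 2) :
    LSD ι d f h := by
  obtain ⟨-, hS, -⟩ := hSCD F d f hd
  obtain ⟨-, -, hl1, -⟩ := hS 1
  have h1 : scd d (1 : (RatFunc F)[X]) = 1 := by
    unfold scd
    exact one_comp
  have h3 := (hl1 L ι).1 (by
    rw [h1, Polynomial.map_one]
    exact hTRS L O π hL _ _ _)
  obtain ⟨x, y, hxy, hy, s, hs⟩ := h3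
  -- the inverse of `s0`
  have hcoL : IsCoprime (h.map ι) ((cubK f).map ι) := hco.map (mapRingHom ι)
  obtain ⟨q, hq⟩ := hs0
  have hs0c : IsCoprime s0 ((cubK f).map ι) := by
    have h4 : IsCoprime (s0 ^ 2 + (cubK f).map ι * q) ((cubK f).map ι) := by
      have : s0 ^ 2 + (cubK f).map ι * q = h.map ι := by linear_combination -hq
      rw [this]
      exact hcoL
    have h5 : IsCoprime (s0 ^ 2) ((cubK f).map ι) := IsCoprime.of_add_mul_left_left h4
    exact (IsCoprime.pow_left_iff (by norm_num)).1 h5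
  obtain ⟨u, v, huv⟩ := hs0c
  refine ⟨x, y, hxy, hy, s * u, ?_⟩
  obtain ⟨q', hq'⟩ := hs
  rw [Polynomial.map_one, one_mul] at hq'
  refine ⟨q' - q * s ^ 2 * u ^ 2 + s ^ 2 * v * (1 + u * s0), ?_⟩
  linear_combination hq' - s ^ 2 * u ^ 2 * hq - s ^ 2 * (1 + u * s0) * huv

/-- A class of the twist which is trivial over the completion at `P` is the class of a unit. -/
theorem ltr_us (hTRS : TRSStmt) (hSCD : SCDStmt) (hLU1 : LU1Stmt) {F : Type} [Field F] [Finite F]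
    (h2 : (2 : F) ≠ 0) {f : F[X] × F[X] × F[X]} {d P : F[X]} (hd : d ≠ 0) (hPm : P.Monic)
    (hPi : Irreducible P) (hP2 : ¬ P ^ 2 ∣ disc f.1 f.2.1 f.2.2)
    (v : IsDedekindDomain.HeightOneSpectrum F[X]) (hv : v.asIdeal = Ideal.span {P})
    (e' : ((Alg f)ˣ ⧸ Sq f) ≃* ((Alg (tw d f))ˣ ⧸ Sq (tw d f)))
    (he1' : ∀ (u : (Alg f)ˣ) (u' : (Alg (tw d f))ˣ) (h : (RatFunc F)[X]),
        (u : Alg f) = AdjoinRoot.mk (cubK f) h →
        (u' : Alg (tw d f)) = AdjoinRoot.mk (cubK (tw d f)) (scd d h) →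
        e' (QuotientGroup.mk u) = QuotientGroup.mk u')
    {ξ0 : (Alg f)ˣ ⧸ Sq f} (hL : LTr v (tw d f) (e' ξ0)) :
    ∃ (u : (Alg f)ˣ) (h : (RatFunc F)[X]), (QuotientGroup.mk u : (Alg f)ˣ ⧸ Sq f) = ξ0 ∧
      (u : Alg f) = AdjoinRoot.mk (cubK f) h ∧ IsCoprime h (cubK f) ∧ US P f h := by
  have hCPP : CPPStmt := Pool.AVS.cpp_thm
  obtain ⟨hinv, hloc, -⟩ := hSCD F d f hd
  obtain ⟨u', h', s, hu', hh', hs⟩ := hL
  have hcomp := hCPP F h2 P hPm hPi v hv
  generalize v.adicCompletionIntegers (RatFunc F) = O at hcomp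
  generalize algebraMap (RatFunc F) (v.adicCompletion (RatFunc F)) = ι at hcomp hs
  obtain ⟨h, hh⟩ : ∃ h : (RatFunc F)[X], h = h'.comp (C (rf d) * X) := ⟨_, rfl⟩
  have hsc : scd d h = h' := by rw [hh]; exact (hinv h').2
  obtain ⟨-, hco, -, -⟩ := hloc h
  rw [hsc] at hco
  have hc' : IsCoprime h' (cubK (tw d f)) :=
    Pool.Agent.H16.AVS.isCoprime_of_unit (tw d f) h' u' hh'
  have hc : IsCoprime h (cubK f) := hco.1 hc'
  obtain ⟨u, hu⟩ := Pool.Agent.H64.PRL.unit_of_coprime f h hc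
  have hξu : (QuotientGroup.mk u : (Alg f)ˣ ⧸ Sq f) = ξ0 := by
    apply e'.injective
    rw [he1' u u' h hu (by rw [hsc]; exact hh'), hu']
  refine ⟨u, h, hξu, hu, hc, ?_⟩
  -- over the completion
  have hsL : (cubK f).map ι ∣ h.map ι - (s.comp (C (ι (rf d)) * X)) ^ 2 := by
    obtain ⟨r, hr⟩ := hs
    have h3 := congrArg (fun p => p.comp (C (ι (rf d)) * X)) hr
    simp only [sub_comp, mul_comp, pow_comp] at h3
    have h4 : ((cubK (tw d f)).map ι).comp (C (ι (rf d)) * X) =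
        C (ι (rf d)) ^ 3 * (cubK f).map ι := by
      unfold cubK cub tw
      simp only [Polynomial.map_add, Polynomial.map_pow, Polynomial.map_X, Polynomial.map_mul,
        Polynomial.map_C, add_comp, mul_comp, pow_comp, X_comp, C_comp, map_mul, map_pow]
      ring
    have h5 : (h'.map ι).comp (C (ι (rf d)) * X) = h.map ι := by
      rw [hh, Polynomial.map_comp]
      simp only [Polynomial.map_mul, Polynomial.map_C, Polynomial.map_X]
    rw [h4, h5] at h3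
    refine ⟨r.comp (C (ι (rf d)) * X) * C (ι (rf d)) ^ 3, ?_⟩
    linear_combination h3
  have hLSD : LSD ι 1 f h := lsd_of_sq hTRS hSCD one_ne_zero hcomp.loc hc hsL
  exact hLU1 F h2 P hPm hPi f 1 hP2 (fun h => hPi.not_isUnit (isUnit_of_dvd_one h)) _ O ι hcomp h
    hLSD

open Classical in
theorem swb (hSE1 : SE1Stmt) (hTYM : TYMStmt) (hTYQ : TYQStmt) (hLU1 : LU1Stmt)
    (hTRS : TRSStmt) (hSCD : SCDStmt) (hTW1 : TW1Stmt) (hUPM : UPMStmt) : SWBStmt := by
  intro F _ _ h2 n T hn hT f hf S hS hc1 hc2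
  obtain ⟨hXT, hMo, -, hpr⟩ := hTW1 F h2 n T hT
  obtain ⟨hprX, hsqf, -⟩ := hpr S hS
  have hf12 : ∀ P ∈ insert X T, T12P P f := hf.2.1
  have hXm : (X : F[X]) ∈ insert X T := Finset.mem_insert_self _ _
  have hXi : Irreducible (X : F[X]) := (hMo X hXm).2
  have hXmo : (X : F[X]).Monic := (hMo X hXm).1
  have hS' : S ⊆ insert X T := hS.trans (Finset.subset_insert _ _)
  have hS'' : insert X S ⊆ insert X T := Finset.insert_subset_insert _ hS
  have hSm : ∀ P ∈ S, P.Monic ∧ Irreducible P := fun P hP => hMo P (hS' hP)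
  refine ⟨hc2, ?_, n, pr S, f, by rw [hprX], hf.1, hf.2.2, hf12 X hXm, hsqf, ?_⟩
  · intro v hv ξ hξ hne hL
    obtain ⟨e, -, he⟩ := hSE1 F h2 n (insert X T) f hn hMo hf S hS'
    obtain ⟨e', he1', he'⟩ := hSE1 F h2 n (insert X T) f hn hMo hf (insert X S) hS''
    have hd0 : pr (insert X S) ≠ 0 :=
      Finset.prod_ne_zero_iff.2 fun P hP => (hMo P (hS'' hP)).1.ne_zero
    obtain ⟨ξ0, rfl⟩ := e'.surjective ξ
    have hne0 : ξ0 ≠ 1 := fun h => hne (by rw [h, map_one])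
    obtain ⟨hR, hty⟩ := (he' ξ0).1 hξ
    have hX2 : ¬ X ^ 2 ∣ disc f.1 f.2.1 f.2.2 := by
      intro hdv
      rw [pow_two] at hdv
      exact hXi.not_isUnit (hf.1.2.1 X hdv)
    obtain ⟨u, h, hξu, hu, hc, hUS⟩ := ltr_us hTRS hSCD hLU1 h2 hd0 hXmo hXi hX2 v hv e' he1' hL
    have hN : IsSquare (Algebra.norm (RatFunc F) (AdjoinRoot.mk (cubK f) h)) := by
      obtain ⟨u₁, h₁, hξ₁, hu₁, hN₁, -⟩ := hR
      have hCLE : CLEStmt := Pool.Agent.H16.AVS.cle_thm
      obtain ⟨t, ht⟩ := (hCLE F f h h₁ u u₁ hu hu₁).1 (hξu.trans hξ₁.symm)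
      obtain ⟨w, hw⟩ := ht
      have h6 : AdjoinRoot.mk (cubK f) h = AdjoinRoot.mk (cubK f) h₁ *
          AdjoinRoot.mk (cubK f) t ^ 2 := by
        rw [← map_pow, ← map_mul, ← sub_eq_zero, ← map_sub, AdjoinRoot.mk_eq_zero]
        exact ⟨w, hw⟩
      rw [h6, map_mul, map_pow]
      exact hN₁.mul (IsSquare.sq _)
    -- the type at `X` is trivial
    have hTyX : TyC f X (0, 0) ξ0 := by
      obtain ⟨x, hx, hx1, -⟩ := hty X hXm
      have hx2 : x.2 = 0 := hx1 (Finset.mem_insert_self _ _)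
      have h6 := typ_of_tyC hTYM hXmo hXi hξu hu hx
      rcases ((hTYM F X f hXmo hXi).2.2.1 (hf12 X hXm) h).1 hUS with h7 | h7
      · exact ⟨u, h, hξu, hu, h7⟩
      · have h8 := hTYQ F h2 X f hXmo hXi h hc hN _ _ h6 h7
        rw [h8] at hx2
        exact absurd hx2 (by decide)
    -- the class would be in the Selmer group of the twist by `pr S`
    have hmem : e ξ0 ∈ Sel (tw (pr S) f) := by
      refine (he ξ0).2 ⟨hR, fun P hP => ?_⟩
      by_cases hPX : P = X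
      · subst hPX
        exact ⟨(0, 0), hTyX, fun _ => rfl, fun _ => rfl⟩
      · obtain ⟨x, hx, hx1, hx2⟩ := hty P hP
        refine ⟨x, hx, fun h3 => hx1 (Finset.mem_insert_of_mem h3), fun h3 => hx2 fun h4 => ?_⟩
        rcases Finset.mem_insert.1 h4 with h5 | h5
        · exact hPX h5
        · exact h3 h5
    have hone : (1 : (Alg (tw (pr S) f))ˣ ⧸ Sq (tw (pr S) f)) ∈ Sel (tw (pr S) f) := by
      have h3 := (he 1).2 ⟨MLGaux.rc_one hUPM, fun P hP => ?_⟩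
      · rwa [map_one] at h3
      · obtain ⟨hPm, hPi⟩ := hMo P hP
        refine ⟨(0, 0), ⟨1, 1, rfl, by simp, ?_⟩, fun _ => rfl, fun _ => rfl⟩
        refine (hTYM F P f hPm hPi).2.2.2 (hf12 P hP) 1 ⟨1, 0, ?_⟩
        simp [lf]
    obtain ⟨w, hw⟩ := Set.ncard_eq_one.1 hc1
    rw [hw, Set.mem_singleton_iff] at hmem hone
    rw [← hone, ← map_one e] at hmem
    exact hne0 (e.injective hmem)
  · intro P hPm hPi hPd
    have hPS := Pool.Agent.H64.PRL.dvd_pr hSm hPm hPi hPd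
    exact ⟨(hT P (hS hPS)).2.2, hf12 P (hS' hPS)⟩

end Pool.RKO
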