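import Pool.Agent.H59.R1.Defs
import Pool.Agent.H54.PRL.LT2
import Pool.Agent.H64.PRL.SEL
import Pool.Agent.H40.PRL.TWP
import Pool.Agent.H77.RZ.TWF
import Pool.Agent.H77.RZ.MinTw

/-!
# TW1: the twists by `X · pr S`
-/

set_option autoImplicit false

namespace Pool.RKO

open Polynomial Matrix Pool.AVR Pool.AVS Pool.RZ Pool.PRL

theorem tw_mul {F : Type} [Field F] (d d' : F[X]) (f : F[X] × F[X] × F[X]) :
    tw (d * d') f = tw d (tw d' f) := by
  unfold tw
  refine Prod.ext ?_ (Prod.ext ?_ ?_)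
  · simp only; ring
  · simp only; ring
  · simp only; ring

/-- The cubic of a twist is irreducible. -/
theorem irr_tw {F : Type} [Field F] {d : F[X]} (hd : d ≠ 0) {f : F[X] × F[X] × F[X]}
    (hi : Irreducible (cubK f)) : Irreducible (cubK (tw d f)) := by
  have hd' : rf d ≠ 0 := (map_ne_zero_iff _ (RatFunc.algebraMap_injective F)).2 hd
  have hm : ∀ g : F[X] × F[X] × F[X], (cubK g).Monic := fun g => by
    unfold cubK cub
    monicity!
  have hn : ∀ g : F[X] × F[X] × F[X], (cubK g).natDegree = 3 := fun g => by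
    unfold cubK cub
    compute_degree!
  rw [irreducible_iff_roots_eq_zero_of_degree_le_three (by rw [hn]; norm_num)
    (by rw [hn])] at hi ⊢
  rw [Multiset.eq_zero_iff_forall_notMem] at hi ⊢
  intro x hx
  rw [mem_roots (hm _).ne_zero, IsRoot.def] at hx
  refine hi (x / rf d) ?_
  rw [mem_roots (hm _).ne_zero, IsRoot.def]
  simp only [cubK, cub, tw, eval_add, eval_mul, eval_pow, eval_X, eval_C, map_mul, map_pow] at hx ⊢
  field_simp
  linear_combination hx

open Classical in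
theorem tw1 (hTWP : TWPStmt) : TW1Stmt := by
  intro F _ _ h2 n T hT
  have hXi : Irreducible (X : F[X]) := irreducible_X
  have hXT : (X : F[X]) ∉ T := by
    intro h
    have h3 := (hT X h).2.2
    rw [natDegree_X] at h3
    exact absurd h3 (by decide)
  have hMoT : MoT T := fun P hP => ⟨(hT P hP).1, (hT P hP).2.1⟩
  have hMo : MoT (insert X T) := by
    intro P hP
    rcases Finset.mem_insert.1 hP with rfl | h
    · exact ⟨monic_X, hXi⟩
    · exact hMoT P h
  have hFm : ∀ f, f ∈ FmT F n (insert X T) ↔ f ∈ FmT F n T ∧ T12P X f := by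
    intro f
    constructor
    · rintro ⟨h3, h4, h5⟩
      exact ⟨⟨h3, fun P hP => h4 P (Finset.mem_insert_of_mem hP), h5⟩,
        h4 X (Finset.mem_insert_self _ _)⟩
    · rintro ⟨⟨h3, h4, h5⟩, h6⟩
      refine ⟨h3, fun P hP => ?_, h5⟩
      rcases Finset.mem_insert.1 hP with rfl | h
      · exact h6
      · exact h4 P h
  obtain ⟨hA, hB⟩ := hTWP F h2 n T hT
  have hprX : ∀ S ⊆ T, pr (insert X S) = X * pr S := fun S hS => by
    rw [pr, pr, Finset.prod_insert fun h => hXT (hS h)]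
  refine ⟨hXT, hMo, hFm, fun S hS => ?_⟩
  obtain ⟨hm, he, hdeg, hsq, hmem⟩ := hA S hS
  have hsqf : Squarefree (pr S) := by
    rw [squarefree_iff_no_irreducibles hm.ne_zero]
    intro x hx hd
    rw [← pow_two] at hd
    exact hsq x hx hd
  refine ⟨hprX S hS, hsqf, fun f hf => ?_⟩
  have hfT := ((hFm f).1 hf).1
  obtain ⟨hfam, hNR, hirr, hsep, hd0, hd2, hTd, hS'⟩ := hB f hfT
  obtain ⟨hI, hE, -, -, hinj⟩ := hS' S hS
  refine ⟨?_, ?_, ?_⟩
  · rw [hprX S hS, tw_mul]
    exact ⟨tw_fam _ X (by rw [natDegree_X]; norm_num) _ hI.1, irr_tw X_ne_zero hI.2.1,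
      LT2.tw_sep X_ne_zero hI.2.2⟩
  · intro h0 P hP
    rintro ⟨hb, hc⟩
    have h8 : P ^ 12 ∣ disc (tw (pr (insert X S)) f).1 (tw (pr (insert X S)) f).2.1
        (tw (pr (insert X S)) f).2.2 := by
      have h9 : (tw (pr (insert X S)) f).1 = 0 := by simp [tw, h0]
      obtain ⟨u, hu⟩ := hb
      obtain ⟨v, hv⟩ := hc
      rw [h9, hu, hv]
      exact ⟨-4 * u ^ 3 - 27 * v ^ 2, by simp only [disc]; ring⟩
    rw [Pool.RZ.disc_tw] at h8
    refine not_dvd_pow12 hP ?_ (hd2 P hP) h8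
    rw [hprX S hS]
    intro h10
    have hsq2 : Squarefree (X * pr S) := by
      refine (squarefree_mul_iff).2 ⟨?_, hXi.squarefree, hsqf⟩
      refine (hXi.coprime_iff_not_dvd.2 fun h => hXT (hS ?_)).isRelPrime
      exact (hmem X monic_X hXi).1 h
    rw [pow_two] at h10
    exact hP.not_isUnit (hsq2 P h10)
  · intro S' hS1 f' hf' heq
    rw [hprX S hS, hprX S' hS1, tw_mul, tw_mul] at heq
    exact hinj S' hS1 f' ((hFm f').1 hf').1 (tw_inj X X_ne_zero heq)

end Pool.RKO
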