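import Pool.Agent.H59.R1.Defs
import Pool.Agent.H40.PRL.DNP

/-!
# UB1: upper bound for the number of curves of the family
-/

set_option autoImplicit false

namespace Pool.RKO

open Polynomial Matrix Pool.AVR Pool.AVS Pool.RZ Pool.PRL

namespace UB1

open Pool.PRL.DNP Pool.AVR.H10DNF Pool.RZ.DN

variable {F : Type} [Field F]

/-- The triples modulo `∏ P`, of type `T12` at all `P`. -/
def WU (T : Finset F[X]) (M : F[X]) : Set (AdjoinRoot M × AdjoinRoot M × AdjoinRoot M) :=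
  {w | ∃ f : F[X] × F[X] × F[X], (AdjoinRoot.mk M f.1, AdjoinRoot.mk M f.2.1,
    AdjoinRoot.mk M f.2.2) = w ∧
    ∀ P ∈ T, T12R (AdjoinRoot.mk P f.1, AdjoinRoot.mk P f.2.1, AdjoinRoot.mk P f.2.2)}

theorem WU_card [Finite F] (T : Finset F[X]) (hT : ∀ P ∈ T, P.Monic ∧ Irreducible P) :
    (WU T (∏ P ∈ T, P)).ncard ≤ ∏ P ∈ T, (TP P).ncard := by
  classical
  have hfinP : ∀ P : T, Finite (AdjoinRoot P.1) := fun P => adj_finite (hT P.1 P.2).1
  choose f hf1 hf2 using fun w : WU T (∏ P ∈ T, P) => w.2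
  let Φ : WU T (∏ P ∈ T, P) → (∀ P : T, TP P.1) := fun w P =>
    ⟨(AdjoinRoot.mk P.1 (f w).1, AdjoinRoot.mk P.1 (f w).2.1, AdjoinRoot.mk P.1 (f w).2.2),
      hf2 w P.1 P.2⟩
  have hΦ : Function.Injective Φ := by
    intro w w' h
    have h3 : ∀ P ∈ T, P ∣ (f w).1 - (f w').1 ∧ P ∣ (f w).2.1 - (f w').2.1 ∧
        P ∣ (f w).2.2 - (f w').2.2 := by
      intro P hP
      have h4 := congrArg Subtype.val (congrFun h ⟨P, hP⟩)
      simp only [Φ, Prod.mk.injEq, AdjoinRoot.mk_eq_mk] at h4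
      exact h4
    have hcop : (T : Set F[X]).Pairwise (Function.onFun IsRelPrime fun P => P) := by
      intro P hP Q hQ hne
      exact (coprime_of_ne (hT P hP).1 (hT P hP).2 (hT Q hQ).1 (hT Q hQ).2 hne).isRelPrime
    apply Subtype.ext
    rw [← hf1 w, ← hf1 w']
    refine Prod.ext ?_ (Prod.ext ?_ ?_)
    · exact AdjoinRoot.mk_eq_mk.2 (Finset.prod_dvd_of_isRelPrime hcop fun P hP => (h3 P hP).1)
    · exact AdjoinRoot.mk_eq_mk.2 (Finset.prod_dvd_of_isRelPrime hcop fun P hP => (h3 P hP).2.1)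
    · exact AdjoinRoot.mk_eq_mk.2 (Finset.prod_dvd_of_isRelPrime hcop fun P hP => (h3 P hP).2.2)
  have h1 := Nat.card_le_card_of_injective Φ hΦ
  rw [Nat.card_pi] at h1
  calc (WU T (∏ P ∈ T, P)).ncard = Nat.card (WU T (∏ P ∈ T, P)) := rfl
    _ ≤ ∏ P : T, Nat.card (TP P.1) := h1
    _ = ∏ P ∈ T, (TP P).ncard := by
      rw [← Finset.prod_coe_sort T]
      rfl

theorem V2_le [Finite F] :
    (V2 F).ncard ≤ {t : F × F × F | NR t}.ncard * Nat.card F ^ 3 := by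
  have hfd : Finite (DualNumber F) := inferInstanceAs (Finite (F × F))
  let Φ : V2 F → {t : F × F × F | NR t} × (F × F × F) := fun p =>
    (⟨(p.1.1.fst, p.1.2.1.fst, p.1.2.2.fst), p.2⟩, (p.1.1.snd, p.1.2.1.snd, p.1.2.2.snd))
  have hΦ : Function.Injective Φ := by
    rintro ⟨⟨a, b, c⟩, h⟩ ⟨⟨a', b', c'⟩, h'⟩ hh
    simp only [Φ, Prod.mk.injEq, Subtype.mk.injEq] at hh
    obtain ⟨⟨h1, h2, h3⟩, h4, h5, h6⟩ := hh
    apply Subtype.ext
    exact Prod.ext (TrivSqZeroExt.ext h1 h4) (Prod.ext (TrivSqZeroExt.ext h2 h5)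
      (TrivSqZeroExt.ext h3 h6))
  have h1 := Nat.card_le_card_of_injective Φ hΦ
  rw [Nat.card_prod, Nat.card_prod, Nat.card_prod] at h1
  calc (V2 F).ncard = Nat.card (V2 F) := rfl
    _ ≤ Nat.card {t : F × F × F | NR t} * (Nat.card F * (Nat.card F * Nat.card F)) := h1
    _ = {t : F × F × F | NR t}.ncard * Nat.card F ^ 3 := by
      rw [show Nat.card F ^ 3 = Nat.card F * (Nat.card F * Nat.card F) by ring]
      rfl

end UB1

open UB1 Pool.PRL.DNP Pool.AVR.H10DNF Pool.RZ.DN in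
theorem ub1 (hEQF : Pool.AVR.EQFStmt) (hCBP : CBPStmt) : UB1Stmt := by
  classical
  intro F _ _ h2 T hT
  set M : F[X] := ∏ P ∈ T, P with hMdef
  have hM : M.Monic := monic_prod_of_monic _ _ (fun P hP => (hT P hP).1)
  have hMdeg : M.natDegree = ∑ P ∈ T, P.natDegree :=
    natDegree_prod_of_monic _ _ (fun P hP => (hT P hP).1)
  have hFmF : ∀ n, (FmT F n T).Finite := fun n =>
    (Fam_finite n).subset ((Set.sep_subset _ _).trans (Set.sep_subset _ _))
  refine ⟨M.natDegree + 1, fun n hn => ⟨hFmF n, ?_⟩⟩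
  set q : ℝ := (Nat.card F : ℝ) with hq
  have hq0 : 0 < q := by rw [hq]; exact_mod_cast Nat.card_pos
  set A : Set (F[X] × F[X] × F[X]) := {f ∈ Fam F n | (AdjoinRoot.mk M f.1, AdjoinRoot.mk M f.2.1,
    AdjoinRoot.mk M f.2.2) ∈ WU T M ∧
        (top (2 * n) f.1, top (4 * n) f.2.1, top (6 * n) f.2.2) ∈ V2 F} with hA
  have hcount := hEQF F n M hM.ne_zero (by omega) (by omega) (WU T M) (V2 F)
  rw [← hA] at hcount
  have hAfin : A.Finite := (Fam_finite n).subset (Set.sep_subset _ _)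
  have hsub : FmT F n T ⊆ A := by
    rintro f ⟨⟨hf, -, -⟩, hW, hV⟩
    refine ⟨hf, ⟨f, rfl, fun P hP => ?_⟩, hV⟩
    exact ((hCBP F h2 P (hT P hP).1 (hT P hP).2).1 f).1 (hW P hP)
  have hle : ((FmT F n T).ncard : ℝ) ≤ A.ncard := by
    exact_mod_cast Set.ncard_le_ncard hsub hAfin
  set U : ℝ := ((∏ P ∈ T, (TP P).ncard : ℕ) : ℝ) with hU
  set R : ℝ := (({t : F × F × F | NR t}.ncard : ℕ) : ℝ) with hR
  have hWc : ((WU T M).ncard : ℝ) ≤ U := by
    rw [hU]
    exact_mod_cast WU_card T hT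
  have hVc : ((V2 F).ncard : ℝ) ≤ R * q ^ 3 := by
    rw [hR, hq]
    exact_mod_cast V2_le (F := F)
  have hcR : (A.ncard : ℝ) * (q ^ (3 * M.natDegree) * q ^ 6) =
      q ^ (12 * n + 3) * ((WU T M).ncard * (V2 F).ncard) := by
    rw [hq]
    exact_mod_cast hcount
  have hprodT : ∏ P ∈ T, (q ^ P.natDegree - 1) / (2 * q ^ P.natDegree) =
      U / q ^ (3 * ∑ P ∈ T, P.natDegree) := by
    have h1 : ∀ P ∈ T, (q ^ P.natDegree - 1) / (2 * q ^ P.natDegree) =
        ((TP P).ncard : ℝ) / q ^ (3 * P.natDegree) := by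
      intro P hP
      have h3 := (hCBP F h2 P (hT P hP).1 (hT P hP).2).2.2.1
      have h4 : 2 * ((TP P).ncard : ℝ) = q ^ (3 * P.natDegree) - q ^ (2 * P.natDegree) := h3
      have hqd : 0 < q ^ P.natDegree := by positivity
      have e3 : q ^ (3 * P.natDegree) = (q ^ P.natDegree) ^ 3 := by
        rw [← pow_mul]
        congr 1
        ring
      have e2 : q ^ (2 * P.natDegree) = (q ^ P.natDegree) ^ 2 := by
        rw [← pow_mul]
        congr 1
        ring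
      rw [e3, e2] at h4
      rw [e3, div_eq_div_iff (by positivity) (by positivity)]
      linear_combination (-(q ^ P.natDegree)) * h4
    rw [Finset.prod_congr rfl h1, Finset.prod_div_distrib, Finset.prod_pow_eq_pow_sum,
      ← Finset.mul_sum, hU]
    push_cast
    rfl
  have hdd : ddT F T ∅ = R / q ^ 3 * (U / q ^ (3 * ∑ P ∈ T, P.natDegree)) := by
    unfold ddT d3
    rw [Finset.prod_empty, mul_one, ← hq, hprodT]
  have hR0 : 0 ≤ R := by rw [hR]; positivity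
  have hU0 : 0 ≤ U := by rw [hU]; positivity
  refine hle.trans ?_
  have hden : 0 < q ^ (3 * M.natDegree) * q ^ 6 := by positivity
  have hAeq : (A.ncard : ℝ) = q ^ (12 * n + 3) * ((WU T M).ncard * (V2 F).ncard) /
      (q ^ (3 * M.natDegree) * q ^ 6) := by
    rw [eq_div_iff hden.ne', hcR]
  rw [hAeq, div_le_iff₀ hden, hdd, hMdeg]
  have h3 : q ^ (12 * n + 3) * (R / q ^ 3 * (U / q ^ (3 * ∑ P ∈ T, P.natDegree))) *
      (q ^ (3 * ∑ P ∈ T, P.natDegree) * q ^ 6) = q ^ (12 * n + 3) * (U * (R * q ^ 3)) := by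
    field_simp
  rw [h3]
  gcongr

end Pool.RKO
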