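import Pool.Agent.H75.PRL.All
import Pool.Agent.H85.R1.All

/-!
# Rank one over `F(t)`: positive proportions of all curves
-/

set_option autoImplicit false

namespace Pool.RKO

open Polynomial Matrix Pool.AVR Pool.AVS Pool.RZ Pool.PRL

open Classical in
/-- In `S` a positive proportion of the curves has a finite group of points, and a positive
proportion has property `R1` and rank at most one. -/
def PosTwo {F : Type} [Field F] (c : ℝ) (S : Set (F[X] × F[X] × F[X])) : Prop :=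
  S.Finite ∧ 0 < S.ncard ∧ c * S.ncard ≤ {g | g ∈ S ∧ Finite (EK g)}.ncard ∧
    c * S.ncard ≤ {g | g ∈ S ∧ R1 g ∧ AddGroup.FG (EK g) ∧ rk g ≤ 1}.ncard

/-- The statement for all curves. -/
def MainTwo (F : Type) [Field F] : Prop :=
  ∃ c : ℝ, 0 < c ∧ ∃ N : ℕ, ∀ m : ℕ, N ≤ m → PosTwo c (Ell F m) ∧
    ((3 : F) ≠ 0 → PosTwo c (Sht F m) ∧ PosTwo c (MinE F m))

theorem pos_sub {α : Type} {Z S' S : Set α} {P Q : α → Prop} {c a b : ℝ} (ha : 0 ≤ a)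
    (hc : 0 ≤ c) (hb : b ≤ a * c) (hZ : Z ⊆ S') (hS : S' ⊆ S) (hf : S.Finite)
    (h1 : c * S.ncard ≤ Z.ncard) (h2 : a * Z.ncard ≤ {g | g ∈ Z ∧ P g}.ncard)
    (hPQ : ∀ g ∈ Z, P g → Q g) : b * S'.ncard ≤ {g | g ∈ S' ∧ Q g}.ncard := by
  have hf' : S'.Finite := hf.subset hS
  have hsub : {g | g ∈ Z ∧ P g} ⊆ {g | g ∈ S' ∧ Q g} := fun g hg => ⟨hZ hg.1, hPQ g hg.1 hg.2⟩
  have e1 : ({g | g ∈ Z ∧ P g}.ncard : ℝ) ≤ {g | g ∈ S' ∧ Q g}.ncard := by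
    exact_mod_cast Set.ncard_le_ncard hsub (hf'.subset fun g hg => hg.1)
  have e2 : (S'.ncard : ℝ) ≤ S.ncard := by exact_mod_cast Set.ncard_le_ncard hS hf
  calc b * S'.ncard ≤ a * c * S'.ncard := mul_le_mul_of_nonneg_right hb (Nat.cast_nonneg _)
    _ ≤ a * c * S.ncard := mul_le_mul_of_nonneg_left e2 (mul_nonneg ha hc)
    _ = a * (c * S.ncard) := by ring
    _ ≤ a * Z.ncard := mul_le_mul_of_nonneg_left h1 ha
    _ ≤ _ := h2.trans e1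

theorem mainTwo (F : Type) [Field F] [Finite F] (h2 : (2 : F) ≠ 0) : MainTwo F := by
  classical
  obtain ⟨hA, k0, hk⟩ := mainR1 F h2 (1 / 10) (by norm_num)
  obtain ⟨-, k1, hk'⟩ := mainPR F h2 (1 / 10) (by norm_num)
  obtain ⟨e, T1, T2, hT, hc⟩ := hA (2 * (k0 + k1) + 1)
  have hodd : Odd T1.card := hc ▸ ⟨k0 + k1, rfl⟩
  obtain ⟨c, c0, N, hN⟩ := hk e T1 T2 hT hodd (by omega)
  obtain ⟨c', c0', N', hN'⟩ := hk' e T1 T2 hT hodd (by omega)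
  refine ⟨min (1 / 10 * c) (1 / 10 * c'), lt_min (by positivity) (by positivity), max N N', ?_⟩
  intro m hm
  obtain ⟨⟨p1, p2, p3, p4, p5⟩, pr, ps⟩ := hN m (le_trans (le_max_left _ _) hm)
  obtain ⟨⟨q1, q2, q3, q4, -, -, q5, -⟩, -, qs⟩ := hN' m (le_trans (le_max_right _ _) hm)
  have key1 : ∀ {Z S' S : Set (F[X] × F[X] × F[X])}, PosR (1 / 10) c Z S → Z ⊆ ZR e T1 T2 m →
      Z ⊆ S' → S' ⊆ S → min (1 / 10 * c) (1 / 10 * c') * S'.ncard ≤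
        ({g | g ∈ S' ∧ R1 g ∧ AddGroup.FG (EK g) ∧ rk g ≤ 1}.ncard : ℝ) := by
    rintro Z S' S ⟨-, r2, -, r4, r5⟩ hZ hZS hS
    refine pos_sub (a := 0.2097 - 1 / 10) (c := c) (by norm_num) c0.le ?_ hZS hS r2 r4 r5 ?_
    · refine (min_le_left _ _).trans (mul_le_mul_of_nonneg_right (by norm_num) c0.le)
    · exact fun g hg hR => ⟨hR, pr g (hZ hg) hR⟩
  have key2 : ∀ {Z S' S : Set (F[X] × F[X] × F[X])}, PosLaw (1 / 10) c' Z S →
      Z ⊆ S' → S' ⊆ S → min (1 / 10 * c) (1 / 10 * c') * S'.ncard ≤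
        ({g | g ∈ S' ∧ Finite (EK g)}.ncard : ℝ) := by
    rintro Z S' S ⟨-, r2, -, r4, -, -, r5, -⟩ hZS hS
    refine pos_sub (a := 0.2097 - 1 / 10) (c := c') (by norm_num) c0'.le ?_ hZS hS r2 r4 r5 ?_
    · refine (min_le_right _ _).trans (mul_le_mul_of_nonneg_right (by norm_num) c0'.le)
    · exact fun g hg hR => hR
  refine ⟨⟨p2, p3, key2 ⟨q1, q2, q3, q4, (hN' m (le_trans (le_max_right _ _) hm)).1.2.2.2.2⟩ q1
    subset_rfl, key1 ⟨p1, p2, p3, p4, p5⟩ subset_rfl p1 subset_rfl⟩, ?_⟩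
  intro h3
  obtain ⟨u, v⟩ := ps h3
  obtain ⟨u', v'⟩ := qs h3
  have hMS : MinE F m ⊆ Sht F m := fun g hg => hg.1
  refine ⟨⟨u.2.1, u.2.2.1, key2 u' u'.1 subset_rfl, key1 u (fun g hg => hg.1) u.1 subset_rfl⟩,
    ⟨u.2.1.subset hMS, ?_, key2 u' v' hMS, key1 u (fun g hg => hg.1) v hMS⟩⟩
  have hpos : (0 : ℝ) < {g | g ∈ ZR e T1 T2 m ∧ g.1 = 0}.ncard := by
    refine lt_of_lt_of_le ?_ u.2.2.2.1
    have := u.2.2.1
    positivity
  have hle : {g | g ∈ ZR e T1 T2 m ∧ g.1 = 0}.ncard ≤ (MinE F m).ncard :=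
    Set.ncard_le_ncard v (u.2.1.subset hMS)
  have hpos' : 0 < {g | g ∈ ZR e T1 T2 m ∧ g.1 = 0}.ncard := by exact_mod_cast hpos
  omega

end Pool.RKO
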